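import Pool.Agent.Lib.MP_cd4c70_gt.Defs

/-!
# MP_cd4c70_gt, Av: a smooth map from a `(k-1)`-dimensional skeleton to `ℝ^k` avoids arbitrarily small vectors
-/

namespace Pool.Agent.Lib.MP_cd4c70_gt

open Set Finset

/-- the affine parametrisation of the vectors with the support in `J ∪ {v₀}` and the sum `1` -/
private noncomputable def Av_par {m : ℕ} (J : Finset (Fin m)) (v₀ : Fin m) (z : J → ℝ) : Fin m → ℝ :=
  fun v => if h : v ∈ J then z ⟨v, h⟩ else if v = v₀ then 1 - ∑ i, z i else 0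

private theorem Av_par_contDiff {m : ℕ} (J : Finset (Fin m)) (v₀ : Fin m) : ContDiff ℝ 1 (Av_par J v₀) := by
  rw [contDiff_pi]
  intro v
  unfold Av_par
  by_cases h : v ∈ J
  · simp only [dif_pos h]
    exact contDiff_apply ℝ ℝ (⟨v, h⟩ : J)
  · simp only [dif_neg h]
    by_cases h' : v = v₀
    · simp only [if_pos h']
      exact contDiff_const.sub (ContDiff.sum fun i _ => contDiff_apply ℝ ℝ i)
    · simp only [if_neg h']
      exact contDiff_const

private theorem Av_dim {k m : ℕ} : dimH (skel m (k - 1)) ≤ ((k - 1 : ℕ) : ENNReal) := by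
  have hsub : skel m (k - 1) ⊆
      ⋃ p : {p : Finset (Fin m) × Fin m // #p.1 ≤ k - 1}, range (Av_par p.1.1 p.1.2) := by
    rintro y ⟨h0, h1, h2⟩
    obtain ⟨S, hS⟩ : ∃ S, S = univ.filter fun v => y v ≠ 0 := ⟨_, rfl⟩
    rw [← hS] at h2
    have hmem : ∀ v, v ∈ S ↔ y v ≠ 0 := fun v => by rw [hS]; simp
    have hne : S.Nonempty := by
      rw [Finset.nonempty_iff_ne_empty]
      intro he
      have h3 : ∀ v, y v = 0 := by
        intro v
        by_contra hv
        have := (hmem v).2 hv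
        rw [he] at this
        exact Finset.notMem_empty _ this
      rw [Finset.sum_eq_zero fun v _ => h3 v] at h1
      exact zero_ne_one h1
    obtain ⟨v₀, hv₀⟩ := hne
    have hcard : #(S.erase v₀) ≤ k - 1 := by
      rw [Finset.card_erase_of_mem hv₀]
      omega
    refine mem_iUnion.2 ⟨⟨(S.erase v₀, v₀), hcard⟩, fun i => y i, ?_⟩
    funext v
    show (if h : v ∈ S.erase v₀ then y v else if v = v₀ then 1 - ∑ i : (S.erase v₀ : Finset (Fin m)), y i else 0) = y v
    by_cases hv : v ∈ S.erase v₀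
    · rw [dif_pos hv]
    · rw [dif_neg hv]
      by_cases hvv : v = v₀
      · rw [if_pos hvv, Finset.sum_coe_sort (S.erase v₀) y]
        have h4 : ∑ v ∈ S, y v = 1 := by
          rw [← h1]
          refine Finset.sum_subset (Finset.subset_univ S) fun v _ hv => ?_
          by_contra hv'
          exact hv ((hmem v).2 hv')
        rw [← Finset.sum_erase_add S y hv₀] at h4
        rw [hvv]
        linarith
      · rw [if_neg hvv]
        by_contra hy
        exact hv (Finset.mem_erase.2 ⟨hvv, (hmem v).2 fun h => hy h.symm⟩)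
  refine (dimH_mono hsub).trans ?_
  rw [dimH_iUnion]
  refine iSup_le fun p => ?_
  refine (Av_par_contDiff p.1.1 p.1.2).dimH_range_le.trans ?_
  rw [Module.finrank_fintype_fun_eq_card, Fintype.card_coe]
  exact Nat.cast_le.2 p.2

theorem avoid {k m : ℕ} (hk : 1 ≤ k) (P : (Fin m → ℝ) → (Fin k → ℝ)) (hP : ContDiff ℝ 1 P) {δ : ℝ} (hδ : 0 < δ) :
    ∃ c : Fin k → ℝ, (∀ j, |c j| < δ) ∧ ∀ y ∈ skel m (k - 1), P y ≠ c := by
  have hd : dimH (skel m (k - 1)) < Module.finrank ℝ (Fin k → ℝ) := by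
    rw [Module.finrank_fin_fun]
    exact Av_dim.trans_lt (Nat.cast_lt.2 (by omega))
  have hdense := ContDiffOn.dense_compl_image_of_dimH_lt_finrank (hP.contDiffOn (s := univ)) convex_univ
    (Set.subset_univ (skel m (k - 1))) hd
  obtain ⟨c, hc, hcP⟩ := hdense.exists_mem_open Metric.isOpen_ball
    (⟨0, Metric.mem_ball_self hδ⟩ : (Metric.ball (0 : Fin k → ℝ) δ).Nonempty)
  refine ⟨c, fun j => ?_, fun y hy hyc => hc ⟨y, hy, hyc⟩⟩
  rw [mem_ball_zero_iff] at hcP
  exact (norm_le_pi_norm c j).trans_lt hcP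

end Pool.Agent.Lib.MP_cd4c70_gt
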