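import Pool.Agent.Lib.MP_cd4c70_gt.Defs

/-!
# MP_cd4c70_gt, Up: upper bounds of widths
-/

namespace Pool.Agent.Lib.MP_cd4c70_gt

open Set Finset

theorem UW_mono {n : ℕ} (ρ : E n → E n → ℝ) {d d' : ℕ} (h : d ≤ d') (S : Set (E n)) : UW ρ d' S ≤ UW ρ d S := by
  unfold UW
  refine iInf_mono fun m => iInf_mono fun π => iInf_mono fun _ => iInf_mono' fun hs => ⟨fun x hx => ?_, le_rfl⟩
  obtain ⟨h1, h2, h3⟩ := hs x hx
  exact ⟨h1, h2, h3.trans (by omega)⟩

private theorem Up_le {n d : ℕ} {ρ : E n → E n → ℝ} {S : Set (E n)} {w : ℝ} {m : ℕ} (π : E n → (Fin m → ℝ))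
    (hc : ContinuousOn π S) (hs : ∀ x ∈ S, π x ∈ skel m d)
    (h : ∀ x ∈ S, ∀ y ∈ S, π x = π y → ρ x y ≤ w) : UW ρ d S ≤ ENNReal.ofReal w := by
  unfold UW
  refine iInf_le_of_le m (iInf_le_of_le π (iInf_le_of_le hc (iInf_le_of_le hs ?_)))
  exact iSup₂_le fun x hx => iSup₂_le fun y hy => iSup_le fun hxy => ENNReal.ofReal_le_ofReal (h x hx y hy hxy)

theorem UW_le_of_orbits {n k : ℕ} (hk : 1 ≤ k) (hkn : k ≤ n) {ρ : E n → E n → ℝ} {w : ℝ}
    (h : ∀ x ∈ Sn n, ∀ y ∈ Sn n, (∀ i : Fin (n + 1), k ≤ i.val → x i = y i) → ρ x y ≤ w) :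
    UW ρ (n + 1 - k) (Sn n) ≤ ENNReal.ofReal w := by
  obtain ⟨l, hl⟩ : ∃ l, l = n + 1 - k := ⟨_, rfl⟩
  rw [← hl]
  have hl1 : 1 ≤ l := by omega
  have hl0 : (0 : ℝ) < l := by exact_mod_cast hl1
  have hidx : ∀ i : Fin l, k + i.val < n + 1 := fun i => by have := i.2; omega
  have hx1 : ∀ x ∈ Sn n, ∀ j : Fin (n + 1), |x j| ≤ 1 := by
    intro x hx j
    have h1 := PiLp.norm_apply_le x j
    rw [mem_Sn.1 hx, Real.norm_eq_abs] at h1
    exact h1
  refine Up_le (m := l + 1) (fun x => Fin.cons (1 - ∑ i : Fin l, (1 + x ⟨k + i.val, hidx i⟩) / (2 * l))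
    (fun i => (1 + x ⟨k + i.val, hidx i⟩) / (2 * l))) ?_ ?_ ?_
  · apply Continuous.continuousOn
    refine continuous_pi fun v => ?_
    refine Fin.cases ?_ (fun i => ?_) v
    · simp only [Fin.cons_zero]
      fun_prop
    · simp only [Fin.cons_succ]
      fun_prop
  · intro x hx
    have h1 : ∀ i : Fin l, 0 ≤ (1 + x ⟨k + i.val, hidx i⟩) / (2 * l) := by
      intro i
      have := abs_le.1 (hx1 x hx ⟨k + i.val, hidx i⟩)
      apply div_nonneg _ (by positivity)
      linarith [this.1]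
    have h2 : ∑ i : Fin l, (1 + x ⟨k + i.val, hidx i⟩) / (2 * l) ≤ 1 := by
      calc ∑ i : Fin l, (1 + x ⟨k + i.val, hidx i⟩) / (2 * l) ≤ ∑ _i : Fin l, 1 / (l : ℝ) := by
            refine Finset.sum_le_sum fun i _ => ?_
            have := abs_le.1 (hx1 x hx ⟨k + i.val, hidx i⟩)
            rw [div_le_div_iff₀ (by positivity) hl0]
            nlinarith [this.2]
        _ = 1 := by
            rw [Finset.sum_const, Finset.card_univ, Fintype.card_fin, nsmul_eq_mul]
            field_simp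
    refine ⟨fun v => ?_, ?_, ?_⟩
    · refine Fin.cases ?_ (fun i => ?_) v
      · simp only [Fin.cons_zero]
        linarith
      · simp only [Fin.cons_succ]
        exact h1 i
    · rw [Fin.sum_univ_succ]
      simp only [Fin.cons_zero, Fin.cons_succ]
      ring
    · exact (Finset.card_le_univ _).trans (by rw [Fintype.card_fin])
  · intro x hx y hy hxy
    refine h x hx y hy fun i hi => ?_
    have h1 : i.val - k < l := by have := i.2; omega
    have h2 := congrFun hxy (Fin.succ ⟨i.val - k, h1⟩)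
    simp only [Fin.cons_succ] at h2
    have h3 : (⟨k + (i.val - k), hidx ⟨i.val - k, h1⟩⟩ : Fin (n + 1)) = i := Fin.ext (by simp only []; omega)
    rw [h3] at h2
    have h4 : (2 * l : ℝ) ≠ 0 := by positivity
    rw [div_left_inj' h4] at h2
    linarith

/-- the minimum of 0 and of the coordinates -/
private noncomputable def Up_mu {n : ℕ} (x : E n) : ℝ := min 0 (Finset.univ.inf' ⟨0, Finset.mem_univ _⟩ fun i => x i)

private theorem Up_mu_nonpos {n : ℕ} (x : E n) : Up_mu x ≤ 0 := min_le_left _ _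

private theorem Up_mu_le {n : ℕ} (x : E n) (i : Fin (n + 1)) : Up_mu x ≤ x i :=
  (min_le_right _ _).trans (Finset.inf'_le _ (Finset.mem_univ i))

private theorem Up_mu_cases {n : ℕ} (x : E n) : Up_mu x = 0 ∨ ∃ i, Up_mu x = x i := by
  rcases min_choice 0 (Finset.univ.inf' ⟨0, Finset.mem_univ _⟩ fun i => x i) with h | h
  · exact Or.inl h
  · obtain ⟨i, -, hi⟩ := Finset.exists_mem_eq_inf' ⟨(0 : Fin (n + 1)), Finset.mem_univ _⟩ fun i => x i
    exact Or.inr ⟨i, h.trans hi⟩

private theorem Up_mu_cont {n : ℕ} : Continuous (Up_mu : E n → ℝ) := by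
  unfold Up_mu
  refine continuous_const.min ?_
  exact Continuous.finset_inf'_apply _ fun i _ => by fun_prop

/-- the coordinates before the normalization -/
private noncomputable def Up_t {n : ℕ} (x : E n) : Fin (n + 2) → ℝ :=
  Fin.cons (-Up_mu x) fun i => x i - Up_mu x

private theorem Up_t_nonneg {n : ℕ} (x : E n) (v : Fin (n + 2)) : 0 ≤ Up_t x v := by
  unfold Up_t
  refine Fin.cases ?_ (fun i => ?_) v
  · simp only [Fin.cons_zero]
    linarith [Up_mu_nonpos x]
  · simp only [Fin.cons_succ]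
    linarith [Up_mu_le x i]

private theorem Up_t_sub {n : ℕ} (x : E n) (i : Fin (n + 1)) : Up_t x i.succ - Up_t x 0 = x i := by
  unfold Up_t
  simp only [Fin.cons_zero, Fin.cons_succ]
  ring

private theorem Up_t_zero {n : ℕ} (x : E n) : ∃ v, Up_t x v = 0 := by
  rcases Up_mu_cases x with h | ⟨i, h⟩
  · refine ⟨0, ?_⟩
    unfold Up_t
    simp only [Fin.cons_zero]
    linarith
  · refine ⟨i.succ, ?_⟩
    unfold Up_t
    simp only [Fin.cons_succ]
    linarith

private theorem Up_t_sum_pos {n : ℕ} (x : E n) (hx : x ∈ Sn n) : 0 < ∑ v, Up_t x v := by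
  rcases (Finset.sum_nonneg fun v _ => Up_t_nonneg x v).lt_or_eq with h | h
  · exact h
  exfalso
  have h1 := (Finset.sum_eq_zero_iff_of_nonneg fun v _ => Up_t_nonneg x v).1 h.symm
  have h2 : x = 0 := by
    ext i
    rw [← Up_t_sub x i, h1 _ (Finset.mem_univ _), h1 _ (Finset.mem_univ _)]
    simp
  rw [mem_Sn, h2, norm_zero] at hx
  exact zero_ne_one hx

private theorem Up_t_cont {n : ℕ} (v : Fin (n + 2)) : Continuous fun x : E n => Up_t x v := by
  unfold Up_t
  have := Up_mu_cont (n := n)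
  refine Fin.cases ?_ (fun i => ?_) v
  · simp only [Fin.cons_zero]
    exact this.neg
  · simp only [Fin.cons_succ]
    exact Continuous.sub (by fun_prop) this

theorem UW_zero {n d : ℕ} (hd : n ≤ d) {ρ : E n → E n → ℝ} (h : ∀ x ∈ Sn n, ρ x x = 0) {S : Set (E n)} (hS : S ⊆ Sn n) :
    UW ρ d S = 0 := by
  have key : UW ρ d S ≤ ENNReal.ofReal 0 := by
    refine Up_le (m := n + 2) (fun x v => Up_t x v / ∑ v, Up_t x v) ?_ ?_ ?_
    · refine continuousOn_pi.2 fun v => ?_
      refine ContinuousOn.div (Up_t_cont v).continuousOn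
        (continuous_finsetSum _ fun v _ => Up_t_cont v).continuousOn fun x hx => ?_
      exact (Up_t_sum_pos x (hS hx)).ne'
    · intro x hx
      have hp := Up_t_sum_pos x (hS hx)
      refine ⟨fun v => div_nonneg (Up_t_nonneg x v) hp.le, ?_, ?_⟩
      · rw [← Finset.sum_div, div_self hp.ne']
      · obtain ⟨v, hv⟩ := Up_t_zero x
        have h1 : (univ.filter fun u => Up_t x u / ∑ v, Up_t x v ≠ 0) ⊆ univ.erase v := by
          intro u hu
          rw [Finset.mem_filter] at hu
          rw [Finset.mem_erase]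
          refine ⟨?_, Finset.mem_univ _⟩
          rintro rfl
          exact hu.2 (by rw [hv, zero_div])
        have h2 := Finset.card_le_card h1
        rw [Finset.card_erase_of_mem (Finset.mem_univ _), Finset.card_univ, Fintype.card_fin] at h2
        exact h2.trans (by omega)
    · intro x hx y hy hxy
      have hpx := Up_t_sum_pos x (hS hx)
      have hpy := Up_t_sum_pos y (hS hy)
      set a := ∑ v, Up_t x v with ha
      set b := ∑ v, Up_t y v with hb
      have h1 : ∀ v, Up_t x v = (a / b) * Up_t y v := by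
        intro v
        have h2 : Up_t x v / a = Up_t y v / b := congrFun hxy v
        rw [div_eq_div_iff hpx.ne' hpy.ne'] at h2
        field_simp
        linarith
      have h3 : x = (a / b) • y := by
        ext i
        rw [PiLp.smul_apply, smul_eq_mul, ← Up_t_sub x i, ← Up_t_sub y i, h1, h1]
        ring
      have h4 : ‖x‖ = a / b * ‖y‖ := by
        conv_lhs => rw [h3]
        rw [norm_smul, Real.norm_eq_abs, abs_of_pos (div_pos hpx hpy)]
      rw [mem_Sn.1 (hS hx), mem_Sn.1 (hS hy), mul_one] at h4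
      rw [← h4, one_smul] at h3
      rw [h3, h y (hS hy)]
  simpa using key

end Pool.Agent.Lib.MP_cd4c70_gt
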