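import Pool.Agent.Lib.MP_cd4c70_gt.Leb
import Pool.Agent.Lib.MP_cd4c70_gt.Up

/-!
# MP_cd4c70_gt, Sh: the round spheres
-/

namespace Pool.Agent.Lib.MP_cd4c70_gt

open Set Finset

/-- The distance function of the round sphere of radius `R`. -/
noncomputable def rnd (n : ℕ) (R : ℝ) (x y : E n) : ℝ := R * InnerProductGeometry.angle x y

private theorem ne_zero_of_Sn {n : ℕ} {x : E n} (hx : x ∈ Sn n) : x ≠ 0 := by
  rw [mem_Sn] at hx
  intro h
  rw [h, norm_zero] at hx
  exact zero_ne_one hx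

private theorem dist_le_angle {n : ℕ} {x y : E n} (hx : x ∈ Sn n) (hy : y ∈ Sn n) :
    dist x y ≤ InnerProductGeometry.angle x y := by
  rw [mem_Sn] at hx hy
  have h1 := norm_sub_sq_real x y
  have h2 := InnerProductGeometry.cos_angle x y
  rw [hx, hy, mul_one, div_one] at h2
  have h3 := Real.one_sub_sq_div_two_le_cos (x := InnerProductGeometry.angle x y)
  have h0 := InnerProductGeometry.angle_nonneg x y
  rw [dist_eq_norm]
  refine (sq_le_sq₀ (norm_nonneg _) h0).1 ?_
  rw [h1, hx, hy, ← h2]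
  nlinarith

theorem round_smet {n : ℕ} {R : ℝ} (hR : 0 < R) : SMet n (rnd n R) where
  self x hx := by
    unfold rnd
    rw [InnerProductGeometry.angle_self (ne_zero_of_Sn hx), mul_zero]
  pos x hx y hy hxy := by
    unfold rnd
    refine mul_pos hR (lt_of_le_of_ne (InnerProductGeometry.angle_nonneg x y) fun h => hxy ?_)
    have h1 := dist_le_angle hx hy
    rw [← h] at h1
    exact dist_le_zero.1 h1
  symm x _ y _ := by
    unfold rnd
    rw [InnerProductGeometry.angle_comm]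
  tri x _ y _ z _ := by
    unfold rnd
    rw [← mul_add]
    exact mul_le_mul_of_nonneg_left (InnerProductGeometry.angle_le_angle_add_angle x y z) hR.le
  cont x hx r hr := by
    have hx0 := ne_zero_of_Sn hx
    have h1 : ContinuousAt (fun y : E n => InnerProductGeometry.angle x y) x :=
      (InnerProductGeometry.continuousAt_angle (x := (x, x)) hx0 hx0).comp
        (f := fun y : E n => (x, y)) (by fun_prop)
    obtain ⟨δ, hδ, h2⟩ := Metric.continuousAt_iff.1 h1 (r / R) (div_pos hr hR)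
    refine ⟨δ, hδ, fun y _ hxy => ?_⟩
    have h3 := h2 (x := y) (by rw [dist_comm]; exact hxy)
    rw [InnerProductGeometry.angle_self hx0, Real.dist_eq, sub_zero,
      abs_of_nonneg (InnerProductGeometry.angle_nonneg x y), lt_div_iff₀ hR] at h3
    unfold rnd
    linarith

theorem round_inv {n : ℕ} (R : ℝ) (k : ℕ) : Inv n k (rnd n R) := by
  intro g _ x _ y _
  unfold rnd
  rw [show InnerProductGeometry.angle (g x) (g y) = InnerProductGeometry.angle x y from
    g.toLinearIsometry.angle_map x y]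

/-- the point `(1, u)` -/
private noncomputable def wv (n : ℕ) (u : Fin n → ℝ) : E n :=
  WithLp.toLp 2 (Fin.cons 1 u : Fin (n + 1) → ℝ)

private theorem wv_cont (n : ℕ) : Continuous (wv n) := by
  unfold wv
  refine (PiLp.continuous_toLp 2 _).comp (continuous_pi fun i => ?_)
  refine Fin.cases ?_ (fun j => ?_) i
  · simp only [Fin.cons_zero]
    exact continuous_const
  · simp only [Fin.cons_succ]
    exact continuous_apply j

private theorem wv_sq (n : ℕ) (u : Fin n → ℝ) : ‖wv n u‖ ^ 2 = 1 + ∑ i, u i ^ 2 := by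
  rw [EuclideanSpace.norm_sq_eq, Fin.sum_univ_succ]
  unfold wv
  simp

private theorem wv_ge (n : ℕ) (u : Fin n → ℝ) : 1 ≤ ‖wv n u‖ := by
  have h1 := wv_sq n u
  have h2 : 0 ≤ ∑ i, u i ^ 2 := Finset.sum_nonneg fun i _ => sq_nonneg _
  nlinarith [norm_nonneg (wv n u)]

private theorem wv_le (n : ℕ) {u : Fin n → ℝ} (hu : u ∈ cube n) : ‖wv n u‖ ≤ Real.sqrt (n + 1) := by
  refine Real.le_sqrt_of_sq_le ?_
  rw [wv_sq]
  have h2 : ∑ i, u i ^ 2 ≤ ∑ _i : Fin n, (1 : ℝ) := Finset.sum_le_sum fun i _ => by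
    have := hu i
    rw [← sq_abs]
    nlinarith [abs_nonneg (u i)]
  rw [Finset.sum_const, Finset.card_univ, Fintype.card_fin, nsmul_eq_mul, mul_one] at h2
  linarith

/-- the chart -/
private noncomputable def ph (n : ℕ) (u : Fin n → ℝ) : E n := (‖wv n u‖)⁻¹ • wv n u

private theorem ph_cont (n : ℕ) : Continuous (ph n) := by
  unfold ph
  refine Continuous.smul (Continuous.inv₀ (wv_cont n).norm fun u => ?_) (wv_cont n)
  have := wv_ge n u
  linarith

private theorem ph_mem (n : ℕ) (u : Fin n → ℝ) : ph n u ∈ Sn n := by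
  rw [mem_Sn]
  unfold ph
  have := wv_ge n u
  rw [norm_smul, norm_inv, norm_norm, inv_mul_cancel₀ (by linarith)]

private theorem ph_apply (n : ℕ) (u : Fin n → ℝ) (j : Fin n) :
    ph n u j.succ = (‖wv n u‖)⁻¹ * u j := by
  unfold ph
  rw [PiLp.smul_apply, smul_eq_mul]
  rfl

theorem round_width {n : ℕ} (hn : 1 ≤ n) {R : ℝ} (hR : 0 < R) :
    ENNReal.ofReal (2 * R / Real.sqrt (n + 1)) ≤ UW (rnd n R) (n - 1) (Sn n) := by
  unfold UW
  refine le_iInf fun m => le_iInf fun π => le_iInf fun hc => le_iInf fun hs => ?_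
  obtain ⟨j, u, hu, v, hv, huj, hvj, huv⟩ := leb hn (fun u => π (ph n u))
    (hc.comp (ph_cont n).continuousOn fun u _ => ph_mem n u) fun u _ => hs _ (ph_mem n u)
  refine le_iSup₂_of_le (ph n u) (ph_mem n u) (le_iSup₂_of_le (ph n v) (ph_mem n v)
    (le_iSup_of_le huv (ENNReal.ofReal_le_ofReal ?_)))
  have hs0 : 0 < Real.sqrt ((n : ℝ) + 1) := Real.sqrt_pos.2 (by positivity)
  have h1 : (Real.sqrt ((n : ℝ) + 1))⁻¹ ≤ (‖wv n u‖)⁻¹ :=
    inv_anti₀ (by linarith [wv_ge n u]) (wv_le n hu)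
  have h2 : (Real.sqrt ((n : ℝ) + 1))⁻¹ ≤ (‖wv n v‖)⁻¹ :=
    inv_anti₀ (by linarith [wv_ge n v]) (wv_le n hv)
  have h3 := dist_le_angle (ph_mem n u) (ph_mem n v)
  have h4 : ‖(ph n u - ph n v) j.succ‖ ≤ ‖ph n u - ph n v‖ := PiLp.norm_apply_le _ _
  rw [PiLp.sub_apply, ph_apply, ph_apply, huj, hvj, Real.norm_eq_abs] at h4
  have h5 : 2 * (Real.sqrt ((n : ℝ) + 1))⁻¹ ≤ InnerProductGeometry.angle (ph n u) (ph n v) := by
    refine le_trans ?_ h3
    rw [dist_eq_norm]
    refine le_trans ?_ h4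
    refine le_trans ?_ (le_abs_self _)
    linarith
  unfold rnd
  calc 2 * R / Real.sqrt (n + 1) = R * (2 * (Real.sqrt ((n : ℝ) + 1))⁻¹) := by
        rw [div_eq_mul_inv]; ring
    _ ≤ R * InnerProductGeometry.angle (ph n u) (ph n v) := mul_le_mul_of_nonneg_left h5 hR.le

end Pool.Agent.Lib.MP_cd4c70_gt
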