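import Pool.Agent.Lib.MP_cd4c70_gt.Defs

/-!
# MP_cd4c70_gt, Lip: metrics for which the elements of `O(k)` are `L`-Lipschitz
-/

namespace Pool.Agent.Lib.MP_cd4c70_gt

open Set Finset
open scoped ENNReal

/-- The elements of `O(k)` are `L`-Lipschitz maps for the metric `ρ`. -/
def LInv (n k : ℕ) (L : ℝ) (ρ : E n → E n → ℝ) : Prop :=
  ∀ g : E n ≃ₗᵢ[ℝ] E n, Acts n k g → ∀ x ∈ Sn n, ∀ y ∈ Sn n, ρ (g x) (g y) ≤ L * ρ x y

theorem acts_one (n k : ℕ) : Acts n k (LinearIsometryEquiv.refl ℝ (E n)) := fun _ _ _ => rfl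

theorem acts_trans {n k : ℕ} {g h : E n ≃ₗᵢ[ℝ] E n} (hg : Acts n k g) (hh : Acts n k h) : Acts n k (g.trans h) := fun x i hi => by
  show h (g x) i = x i
  rw [hh _ i hi, hg _ i hi]

theorem acts_symm {n k : ℕ} {g : E n ≃ₗᵢ[ℝ] E n} (hg : Acts n k g) : Acts n k g.symm := fun x i hi => by
  have h := hg (g.symm x) i hi
  rw [LinearIsometryEquiv.apply_symm_apply] at h
  exact h.symm

theorem act_mem {n : ℕ} (g : E n ≃ₗᵢ[ℝ] E n) {x : E n} (hx : x ∈ Sn n) : g x ∈ Sn n := by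
  rw [mem_Sn, LinearIsometryEquiv.norm_map]
  exact mem_Sn.1 hx

/-- The group `O(k)` as a type. -/
abbrev Ok (n k : ℕ) : Type := {g : E n ≃ₗᵢ[ℝ] E n // Acts n k g}

/-- The largest distance of the images of two points under an element of `O(k)`. -/
noncomputable def ρs (n k : ℕ) (ρ : E n → E n → ℝ) (x y : E n) : ℝ := ⨆ g : Ok n k, ρ (g.1 x) (g.1 y)

private theorem Lip_nonneg {n : ℕ} {ρ : E n → E n → ℝ} (hρ : SMet n ρ) {x y : E n} (hx : x ∈ Sn n) (hy : y ∈ Sn n) : 0 ≤ ρ x y := by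
  by_cases h : x = y
  · rw [h, hρ.self y hy]
  · exact (hρ.pos x hx y hy h).le

theorem exists_inv {n k : ℕ} {L : ℝ} (hL : 1 ≤ L) {ρ : E n → E n → ℝ} (hρ : SMet n ρ) (h : LInv n k L ρ) :
    ∃ ρ' : E n → E n → ℝ, SMet n ρ' ∧ Inv n k ρ' ∧ ∀ x ∈ Sn n, ∀ y ∈ Sn n, ρ x y ≤ ρ' x y ∧ ρ' x y ≤ L * ρ x y := by
  have hne : Nonempty (Ok n k) := ⟨⟨_, acts_one n k⟩⟩
  have hL0 : 0 < L := by linarith
  have hbd : ∀ x ∈ Sn n, ∀ y ∈ Sn n, BddAbove (Set.range fun g : Ok n k => ρ (g.1 x) (g.1 y)) := by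
    intro x hx y hy
    refine ⟨L * ρ x y, ?_⟩
    rintro _ ⟨g, rfl⟩
    exact h g.1 g.2 x hx y hy
  have hle : ∀ x ∈ Sn n, ∀ y ∈ Sn n, ρs n k ρ x y ≤ L * ρ x y := fun x hx y hy =>
    ciSup_le fun g => h g.1 g.2 x hx y hy
  have hge : ∀ x ∈ Sn n, ∀ y ∈ Sn n, ρ x y ≤ ρs n k ρ x y := fun x hx y hy =>
    le_ciSup (hbd x hx y hy) ⟨_, acts_one n k⟩
  refine ⟨ρs n k ρ, ⟨?_, ?_, ?_, ?_, ?_⟩, ?_, fun x hx y hy => ⟨hge x hx y hy, hle x hx y hy⟩⟩
  · intro x hx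
    refine le_antisymm ?_ ?_
    · have := hle x hx x hx
      rwa [hρ.self x hx, mul_zero] at this
    · have := hge x hx x hx
      rwa [hρ.self x hx] at this
  · intro x hx y hy hxy
    exact (hρ.pos x hx y hy hxy).trans_le (hge x hx y hy)
  · intro x hx y hy
    unfold ρs
    congr 1
    funext g
    exact hρ.symm _ (act_mem g.1 hx) _ (act_mem g.1 hy)
  · intro x hx y hy z hz
    refine ciSup_le fun g => ?_
    have h1 := hρ.tri _ (act_mem g.1 hx) _ (act_mem g.1 hy) _ (act_mem g.1 hz)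
    have h2 : ρ (g.1 x) (g.1 y) ≤ ρs n k ρ x y := le_ciSup (hbd x hx y hy) g
    have h3 : ρ (g.1 y) (g.1 z) ≤ ρs n k ρ y z := le_ciSup (hbd y hy z hz) g
    linarith
  · intro x hx r hr
    obtain ⟨δ, hδ, H⟩ := hρ.cont x hx (r / L) (by positivity)
    refine ⟨δ, hδ, fun y hy hd => ?_⟩
    have h1 := H y hy hd
    rw [lt_div_iff₀ hL0] at h1
    have h2 := hle x hx y hy
    linarith
  · intro g hg x hx y hy
    refine le_antisymm ?_ ?_
    · refine ciSup_le fun g' => ?_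
      exact le_ciSup (hbd x hx y hy) ⟨g.trans g'.1, acts_trans hg g'.2⟩
    · refine ciSup_le fun g' => ?_
      have h1 := le_ciSup (hbd _ (act_mem g hx) _ (act_mem g hy)) ⟨g.symm.trans g'.1, acts_trans (acts_symm hg) g'.2⟩
      have h2 : ∀ z, (g.symm.trans g'.1) (g z) = g'.1 z := fun z => by
        show g'.1 (g.symm (g z)) = g'.1 z
        rw [LinearIsometryEquiv.symm_apply_apply]
      simp only [h2] at h1
      exact h1

theorem UW_lt {n d : ℕ} {ρ ρ' : E n → E n → ℝ} {L w : ℝ} (hL : 0 < L) {S S' : Set (E n)} (hS : S' ⊆ S)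
    (h : ∀ x ∈ S', ∀ y ∈ S', ρ' x y ≤ L * ρ x y) (hw : UW ρ d S < ENNReal.ofReal w) :
    UW ρ' d S' < ENNReal.ofReal (L * w) := by
  unfold UW at hw
  simp only [iInf_lt_iff] at hw
  obtain ⟨m, π, hπc, hπs, hlt⟩ := hw
  have h1 : UW ρ' d S' ≤ ENNReal.ofReal L * ⨆ (x ∈ S) (y ∈ S) (_ : π x = π y), ENNReal.ofReal (ρ x y) := by
    unfold UW
    refine iInf_le_of_le m ?_
    refine iInf_le_of_le π ?_
    refine iInf_le_of_le (hπc.mono hS) ?_
    refine iInf_le_of_le (fun x hx => hπs x (hS hx)) ?_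
    refine iSup_le fun x => iSup_le fun hx => iSup_le fun y => iSup_le fun hy => iSup_le fun hxy => ?_
    refine (ENNReal.ofReal_le_ofReal (h x hx y hy)).trans ?_
    rw [ENNReal.ofReal_mul hL.le]
    gcongr
    exact le_iSup_of_le x (le_iSup_of_le (hS hx) (le_iSup_of_le y (le_iSup_of_le (hS hy) (le_iSup_of_le hxy le_rfl))))
  refine h1.trans_lt ?_
  rw [ENNReal.ofReal_mul hL.le]
  exact ENNReal.mul_lt_mul_right (ENNReal.ofReal_pos.2 hL).ne' ENNReal.ofReal_ne_top hlt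

theorem UW_mono_left {n : ℕ} {ρ ρ' : E n → E n → ℝ} (d : ℕ) {S : Set (E n)} (h : ∀ x ∈ S, ∀ y ∈ S, ρ x y ≤ ρ' x y) :
    UW ρ d S ≤ UW ρ' d S := by
  unfold UW
  refine iInf_mono fun m => iInf_mono fun π => iInf_mono fun _ => iInf_mono fun _ => ?_
  exact iSup_mono fun x => iSup_mono fun hx => iSup_mono fun y => iSup_mono fun hy => iSup_mono fun _ =>
    ENNReal.ofReal_le_ofReal (h x hx y hy)

end Pool.Agent.Lib.MP_cd4c70_gt
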