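import Pool.Agent.Lib.MP_cd4c70_gt.Two
import Pool.Agent.Lib.MP_cd4c70_gt.Lip

/-!
# MP_cd4c70_gt, So: `SO(k)` instead of `O(k)`
-/

namespace Pool.Agent.Lib.MP_cd4c70_gt

open Set Finset MeasureTheory
open scoped RealInnerProductSpace

/-- The elements of `SO(k)` are `L`-Lipschitz maps for the metric `ρ`. -/
def SLip (n k : ℕ) (L : ℝ) (ρ : E n → E n → ℝ) : Prop :=
  ∀ g : E n ≃ₗᵢ[ℝ] E n, Acts n k g → LinearMap.det (g.toLinearEquiv : E n →ₗ[ℝ] E n) = 1 →
    ∀ x ∈ Sn n, ∀ y ∈ Sn n, ρ (g x) (g y) ≤ L * ρ x y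

private theorem So_det {n : ℕ} (g : E n ≃ₗᵢ[ℝ] E n) : |LinearMap.det (g.toLinearEquiv : E n →ₗ[ℝ] E n)| = 1 := by
  have h1 := Measure.addHaar_image_linearMap (volume : Measure (E n)) (g.toLinearEquiv : E n →ₗ[ℝ] E n) (Metric.ball 0 1)
  have h2 : (g.toLinearEquiv : E n →ₗ[ℝ] E n) '' Metric.ball 0 1 = Metric.ball (0 : E n) 1 := by
    have := g.image_ball 0 1
    rw [map_zero] at this
    exact this
  rw [h2] at h1
  have h3 : volume (Metric.ball (0 : E n) 1) ≠ 0 := (Metric.measure_ball_pos _ _ one_pos).ne'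
  have h4 : volume (Metric.ball (0 : E n) 1) ≠ ⊤ := measure_ball_lt_top.ne
  have h5 : ENNReal.ofReal |LinearMap.det (g.toLinearEquiv : E n →ₗ[ℝ] E n)| = 1 := by
    have h6 : 1 * volume (Metric.ball (0 : E n) 1) =
        ENNReal.ofReal |LinearMap.det (g.toLinearEquiv : E n →ₗ[ℝ] E n)| * volume (Metric.ball (0 : E n) 1) := by
      rw [one_mul]
      exact h1
    exact ((ENNReal.mul_left_inj h3 h4).1 h6).symm
  rwa [ENNReal.ofReal_eq_one] at h5

theorem linv_of_slip {n k : ℕ} (hk : 3 ≤ k) (hkn : k ≤ n + 1) {L : ℝ} {ρ : E n → E n → ℝ} (h : SLip n k L ρ) : LInv n k L ρ := by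
  intro g hg x hx y hy
  by_cases hd : LinearMap.det (g.toLinearEquiv : E n →ₗ[ℝ] E n) = 1
  · exact h g hg hd x hx y hy
  have hd' : LinearMap.det (g.toLinearEquiv : E n →ₗ[ℝ] E n) = -1 := by
    rcases (abs_eq (zero_le_one)).1 (So_det g) with h1 | h1
    · exact absurd h1 hd
    · exact h1
  obtain ⟨w, hw, hxw, hyw⟩ := exists_perp hk hkn x y
  obtain ⟨s, hs⟩ : ∃ s : E n ≃ₗᵢ[ℝ] E n, s = (ℝ ∙ w)ᗮ.reflection := ⟨_, rfl⟩
  have hfix : ∀ z : E n, ⟪z, w⟫ = 0 → s z = z := fun z hz => by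
    rw [hs]
    refine Submodule.reflection_mem_subspace_eq_self (Submodule.mem_orthogonal_singleton_iff_inner_right.2 ?_)
    rw [real_inner_comm]
    exact hz
  have hact : Acts n k s := by
    intro z i hi
    have he : ∀ v : E n, ⟪(EuclideanSpace.single i (1 : ℝ) : E n), v⟫ = v i := fun v => by
      rw [EuclideanSpace.inner_single_left]
      simp
    have h1 : s (EuclideanSpace.single i (1 : ℝ)) = EuclideanSpace.single i (1 : ℝ) := hfix _ (by rw [he, hw.2 i hi])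
    have h2 := LinearIsometryEquiv.inner_map_map s (EuclideanSpace.single i (1 : ℝ)) z
    rw [h1, he, he] at h2
    exact h2
  have hw0 : w ≠ 0 := by
    intro h0
    have := hw.1
    rw [h0, norm_zero] at this
    exact zero_ne_one this
  have hdets : LinearMap.det (s.toLinearEquiv : E n →ₗ[ℝ] E n) = -1 := by
    have h1 := Submodule.det_reflection (K := (ℝ ∙ w)ᗮ)
    rw [Submodule.orthogonal_orthogonal, finrank_span_singleton hw0, pow_one] at h1
    rw [hs]
    exact h1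
  have h3 := h (s.trans g) (acts_trans hact hg) (by
    have h4 : ((s.trans g).toLinearEquiv : E n →ₗ[ℝ] E n) = (g.toLinearEquiv : E n →ₗ[ℝ] E n) ∘ₗ (s.toLinearEquiv : E n →ₗ[ℝ] E n) := rfl
    rw [h4, LinearMap.det_comp, hd', hdets]
    norm_num) x hx y hy
  rw [LinearIsometryEquiv.trans_apply, LinearIsometryEquiv.trans_apply, hfix x hxw, hfix y hyw] at h3
  exact h3

end Pool.Agent.Lib.MP_cd4c70_gt
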