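import Pool.Agent.Lib.MP_cd4c70_gt.Orb

/-!
# MP_cd4c70_gt, Tub: every pair of points of an orbit is in a tube
-/

namespace Pool.Agent.Lib.MP_cd4c70_gt

open Set Finset

/-- The coordinates from `k` on. -/
private noncomputable def Tub_hi {n : ℕ} (k : ℕ) (x : E n) : E n := WithLp.toLp 2 fun i : Fin (n + 1) => if k ≤ i.val then x i else 0

/-- The first `k` coordinates. -/
private noncomputable def Tub_lo {n : ℕ} (k : ℕ) (x : E n) : E n := WithLp.toLp 2 fun i : Fin (n + 1) => if k ≤ i.val then 0 else x i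

private theorem Tub_hi_apply {n : ℕ} (k : ℕ) (x : E n) (i : Fin (n + 1)) : Tub_hi k x i = if k ≤ i.val then x i else 0 := rfl

private theorem Tub_lo_apply {n : ℕ} (k : ℕ) (x : E n) (i : Fin (n + 1)) : Tub_lo k x i = if k ≤ i.val then 0 else x i := rfl

private theorem Tub_add {n : ℕ} (k : ℕ) (x : E n) : Tub_hi k x + Tub_lo k x = x := by
  ext i
  rw [PiLp.add_apply, Tub_hi_apply, Tub_lo_apply]
  split_ifs
  · rw [add_zero]
  · rw [zero_add]

private theorem Tub_norm {n : ℕ} (k : ℕ) (x : E n) : ‖Tub_hi k x‖ ^ 2 + ‖Tub_lo k x‖ ^ 2 = ‖x‖ ^ 2 := by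
  rw [EuclideanSpace.norm_sq_eq, EuclideanSpace.norm_sq_eq, EuclideanSpace.norm_sq_eq, ← Finset.sum_add_distrib]
  refine Finset.sum_congr rfl fun i _ => ?_
  rw [Tub_hi_apply, Tub_lo_apply]
  split_ifs
  · rw [norm_zero]; ring
  · rw [norm_zero]; ring

private theorem Tub_MU {n k : ℕ} {x : E n} {s : ℝ} (hs : 0 < s) (h : ‖Tub_lo k x‖ = s) : s⁻¹ • Tub_lo k x ∈ MU n k := by
  refine ⟨?_, fun i hi => ?_⟩
  · rw [norm_smul, h, norm_inv, Real.norm_of_nonneg hs.le, inv_mul_cancel₀ hs.ne']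
  · rw [PiLp.smul_apply, Tub_lo_apply, if_pos hi, smul_zero]

private theorem Tub_pos {n k : ℕ} (hkn : k ≤ n) (b : E n) (hb : ∀ i : Fin (n + 1), i.val < k → b i = 0) {s : ℝ} (hs : 0 < s)
    (h1 : ‖b‖ ^ 2 + s ^ 2 = 1) :
    ∃ (a : ℝ → E n) (r : ℝ → ℝ), Tube n k a r ∧ a 1 = b ∧ r 1 = s := by
  obtain ⟨e, he⟩ : ∃ e : E n, e = EuclideanSpace.single (Fin.last n) (1 : ℝ) := ⟨_, rfl⟩
  have hen : ‖e‖ = 1 := by
    rw [he, EuclideanSpace.norm_single, norm_one]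
  have hei : ∀ i : Fin (n + 1), i.val < k → e i = 0 := by
    intro i hi
    rw [he, EuclideanSpace.single_apply, if_neg]
    intro h
    rw [h, Fin.val_last] at hi
    omega
  obtain ⟨c, hc⟩ : ∃ c : ℝ → ℝ, c = fun τ => max 0 (min τ 1) := ⟨_, rfl⟩
  have hcc : Continuous c := by
    rw [hc]
    exact continuous_const.max (continuous_id.min continuous_const)
  have hc0 : ∀ τ, 0 ≤ c τ := fun τ => by
    rw [hc]
    exact le_max_left _ _
  have hc00 : c 0 = 0 := by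
    rw [hc]
    simp
  have hc11 : c 1 = 1 := by
    rw [hc]
    simp
  obtain ⟨w, hw⟩ : ∃ w : ℝ → E n, w = fun τ => (1 - c τ) • e + c τ • b := ⟨_, rfl⟩
  have hwc : Continuous w := by
    rw [hw]
    exact ((continuous_const.sub hcc).smul continuous_const).add (hcc.smul continuous_const)
  obtain ⟨l, hl⟩ : ∃ l : ℝ → ℝ, l = fun τ => Real.sqrt (‖w τ‖ ^ 2 + (c τ * s) ^ 2) := ⟨_, rfl⟩
  have hlc : Continuous l := by
    rw [hl]
    exact ((hwc.norm.pow 2).add ((hcc.mul continuous_const).pow 2)).sqrt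
  have hin : ∀ τ, 0 < ‖w τ‖ ^ 2 + (c τ * s) ^ 2 := by
    intro τ
    rcases (hc0 τ).eq_or_lt with h | h
    · have h2 : w τ = e := by
        rw [hw]
        show (1 - c τ) • e + c τ • b = e
        rw [← h, sub_zero, one_smul, zero_smul, add_zero]
      rw [h2, hen]
      positivity
    · positivity
  have hl0 : ∀ τ, 0 < l τ := fun τ => by
    rw [hl]
    exact Real.sqrt_pos.2 (hin τ)
  have hl2 : ∀ τ, l τ ^ 2 = ‖w τ‖ ^ 2 + (c τ * s) ^ 2 := fun τ => by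
    rw [hl]
    exact Real.sq_sqrt (hin τ).le
  have hw1 : w 1 = b := by
    rw [hw]
    show (1 - c 1) • e + c 1 • b = b
    rw [hc11, sub_self, zero_smul, one_smul, zero_add]
  have hl1 : l 1 = 1 := by
    have h2 := hl2 1
    rw [hw1, hc11, one_mul, h1] at h2
    have h3 := hl0 1
    nlinarith
  refine ⟨fun τ => (l τ)⁻¹ • w τ, fun τ => (l τ)⁻¹ * (c τ * s), ⟨?_, ?_, ?_, ?_, ?_⟩, ?_, ?_⟩
  · exact (hlc.inv₀ fun τ => (hl0 τ).ne').smul hwc
  · exact (hlc.inv₀ fun τ => (hl0 τ).ne').mul (hcc.mul continuous_const)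
  · intro τ i hi
    show ((l τ)⁻¹ • w τ) i = 0
    rw [hw, PiLp.smul_apply, PiLp.add_apply, PiLp.smul_apply, PiLp.smul_apply, hei i hi, hb i hi, smul_zero, smul_zero, add_zero,
      smul_zero]
  · intro τ
    show ‖(l τ)⁻¹ • w τ‖ ^ 2 + ((l τ)⁻¹ * (c τ * s)) ^ 2 = 1
    have h3 := (hl0 τ).ne'
    rw [norm_smul, norm_inv, Real.norm_of_nonneg (hl0 τ).le, mul_pow, mul_pow, ← mul_add, ← hl2 τ, inv_pow]
    exact inv_mul_cancel₀ (pow_ne_zero 2 h3)
  · show (l 0)⁻¹ * (c 0 * s) = 0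
    rw [hc00, zero_mul, mul_zero]
  · show (l 1)⁻¹ • w 1 = b
    rw [hl1, hw1, inv_one, one_smul]
  · show (l 1)⁻¹ * (c 1 * s) = s
    rw [hl1, hc11, inv_one, one_mul, one_mul]

theorem exists_tube {n k : ℕ} (hk : 1 ≤ k) (hkn : k ≤ n) {x y : E n} (hx : x ∈ Sn n) (hy : y ∈ Sn n)
    (h : ∀ i : Fin (n + 1), k ≤ i.val → x i = y i) :
    ∃ (a : ℝ → E n) (r : ℝ → ℝ), Tube n k a r ∧ ∃ p ∈ MU n k, ∃ q ∈ MU n k, pt a r 1 p = x ∧ pt a r 1 q = y := by
  rw [mem_Sn] at hx hy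
  have hb : Tub_hi k x = Tub_hi k y := by
    ext i
    rw [Tub_hi_apply, Tub_hi_apply]
    split_ifs with hi
    · exact h i hi
    · rfl
  obtain ⟨b, hbd⟩ : ∃ b, b = Tub_hi k x := ⟨_, rfl⟩
  have hb0 : ∀ i : Fin (n + 1), i.val < k → b i = 0 := fun i hi => by
    rw [hbd, Tub_hi_apply, if_neg (by omega)]
  have hnx := Tub_norm k x
  have hny := Tub_norm k y
  rw [← hb, hy, ← hbd] at hny
  rw [hx, ← hbd] at hnx
  have hs : ‖Tub_lo k y‖ = ‖Tub_lo k x‖ := by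
    have h1 : ‖Tub_lo k y‖ ^ 2 = ‖Tub_lo k x‖ ^ 2 := by linarith
    exact (pow_left_inj₀ (norm_nonneg _) (norm_nonneg _) two_ne_zero).1 h1
  have hxa : b + Tub_lo k x = x := by rw [hbd]; exact Tub_add k x
  have hya : b + Tub_lo k y = y := by rw [hbd, hb]; exact Tub_add k y
  rcases (norm_nonneg (Tub_lo k x)).eq_or_lt with h0 | h0
  · have hx0 : Tub_lo k x = 0 := norm_eq_zero.1 h0.symm
    have hy0 : Tub_lo k y = 0 := norm_eq_zero.1 (hs.trans h0.symm)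
    have hp : (EuclideanSpace.single 0 (1 : ℝ) : E n) ∈ MU n k := by
      refine ⟨by rw [EuclideanSpace.norm_single, norm_one], fun i hi => ?_⟩
      rw [EuclideanSpace.single_apply, if_neg]
      intro h2
      rw [h2, Fin.val_zero] at hi
      omega
    refine ⟨fun _ => b, fun _ => 0, ⟨continuous_const, continuous_const, fun _ i hi => hb0 i hi, fun _ => ?_, rfl⟩, _, hp, _, hp, ?_, ?_⟩
    · rw [← h0] at hnx
      linarith
    · unfold pt
      rw [zero_smul]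
      rw [hx0] at hxa
      exact hxa
    · unfold pt
      rw [zero_smul]
      rw [hy0] at hya
      exact hya
  · obtain ⟨a, r, hT, ha1, hr1⟩ := Tub_pos hkn b hb0 h0 (by linarith)
    refine ⟨a, r, hT, _, Tub_MU h0 rfl, _, Tub_MU h0 hs, ?_, ?_⟩
    · unfold pt
      rw [ha1, hr1, smul_smul, mul_inv_cancel₀ h0.ne', one_smul, hxa]
    · unfold pt
      rw [ha1, hr1, smul_smul, mul_inv_cancel₀ h0.ne', one_smul, hya]

end Pool.Agent.Lib.MP_cd4c70_gt
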