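import Pool.Agent.Lib.MP_cd4c70_gt.Prism
import Pool.Agent.Lib.MP_cd4c70_gt.Tub
import Pool.Agent.Lib.MP_cd4c70_gt.Sh
import Pool.Agent.Lib.MP_cd4c70_gt.So

/-!
# MP_cd4c70_gt: metrics with symmetries
-/

namespace Pool.Agent.Lib.MP_cd4c70_gt

open Set Finset
open scoped ENNReal

theorem Thm_scale {n : ℕ} {ρ : E n → E n → ℝ} (hρ : SMet n ρ) {c : ℝ} (hc : 0 < c) : SMet n (fun x y => c * ρ x y) := by
  refine ⟨fun x hx => ?_, fun x hx y hy hxy => ?_, fun x hx y hy => ?_, fun x hx y hy z hz => ?_, fun x hx r hr => ?_⟩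
  · rw [hρ.self x hx, mul_zero]
  · exact mul_pos hc (hρ.pos x hx y hy hxy)
  · rw [hρ.symm x hx y hy]
  · rw [← mul_add]
    exact mul_le_mul_of_nonneg_left (hρ.tri x hx y hy z hz) hc.le
  · obtain ⟨δ, hδ, H⟩ := hρ.cont x hx (r / c) (by positivity)
    refine ⟨δ, hδ, fun y hy hd => ?_⟩
    have h1 := H y hy hd
    rw [lt_div_iff₀ hc] at h1
    linarith

theorem Thm_nonneg {n : ℕ} {ρ : E n → E n → ℝ} (hρ : SMet n ρ) {x y : E n} (hx : x ∈ Sn n) (hy : y ∈ Sn n) : 0 ≤ ρ x y := by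
  by_cases h : x = y
  · rw [h, hρ.self y hy]
  · exact (hρ.pos x hx y hy h).le

/-- The local-to-global inequality. -/
theorem sym_width {k n : ℕ} (hk : 3 ≤ k) (hn : k ≤ n) {L η : ℝ} (hL : 1 ≤ L) (hη : 0 < η)
    (hη1 : 40 * L * (k : ℝ) ^ 2 * η ≤ 1) {ρ : E n → E n → ℝ} (hρ : SMet n ρ) (h : SLip n k L ρ)
    (hw : ∀ x ∈ Sn n, UW ρ (k - 1) (bal n ρ x) < ENNReal.ofReal η) :
    (∀ x ∈ Sn n, ∀ g : E n ≃ₗᵢ[ℝ] E n, Acts n k g → ρ x (g x) ≤ 20 * L * (k : ℝ) ^ 2 * η) ∧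
    UW ρ (n + 1 - k) (Sn n) ≤ ENNReal.ofReal (20 * L * (k : ℝ) ^ 2 * η) := by
  have hL0 : 0 < L := by linarith
  have hk3 : (3 : ℝ) ≤ k := by exact_mod_cast hk
  have hk0 : (0 : ℝ) < k := by linarith
  obtain ⟨ρ', hρ', hi', hc'⟩ := exists_inv hL hρ (linv_of_slip hk (by omega) h)
  obtain ⟨c, hc⟩ : ∃ c : ℝ, c = 1 / (40 * L * (k : ℝ) ^ 2 * η) := ⟨_, rfl⟩
  have hden : 0 < 40 * L * (k : ℝ) ^ 2 * η := by positivity
  have hc0 : 0 < c := by rw [hc]; positivity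
  have hc1 : 1 ≤ c := by
    rw [hc, le_div_iff₀ hden, one_mul]
    exact hη1
  have key : ∀ x ∈ Sn n, ∀ y ∈ Sn n, (∀ i : Fin (n + 1), k ≤ i.val → x i = y i) → ρ x y ≤ 20 * L * (k : ℝ) ^ 2 * η := by
    intro x hx y hy hxy
    obtain ⟨a, r, hT, p, hp, q, hq, e1, e2⟩ := exists_tube (by omega) hn hx hy hxy
    have h1 := prism hk n (by omega) (fun x y => c * ρ' x y) (Thm_scale hρ' hc0)
      (fun g hg x hx y hy => congrArg (fun s => c * s) (hi' g hg x hx y hy)) (fun z hz => ?_) a r hT p hp q hq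
    · rw [e1, e2] at h1
      have h2 := (hc' x hx y hy).1
      have h3 : ρ' x y ≤ 1 / 2 / c := by
        rw [le_div_iff₀ hc0]
        linarith
      have h4 : 1 / 2 / c = 20 * L * (k : ℝ) ^ 2 * η := by
        rw [hc]
        field_simp
        norm_num
      linarith
    · have h5 : 1 / (40 * (k : ℝ) ^ 2) = (c * L) * η := by
        rw [hc]
        field_simp
      rw [h5]
      refine UW_lt (by positivity) (S := bal n ρ z) (fun w hw' => ⟨hw'.1, ?_⟩) (fun u hu v hv => ?_) (hw z hz)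
      · have h6 : c * ρ' z w ≤ 1 := hw'.2
        have h7 := (hc' z hz w hw'.1).1
        have h8 := Thm_nonneg hρ' hz hw'.1
        have h9 : ρ' z w ≤ c * ρ' z w := le_mul_of_one_le_left h8 hc1
        linarith
      · have h7 := (hc' u hu.1 v hv.1).2
        show c * ρ' u v ≤ c * L * ρ u v
        rw [mul_assoc]
        exact mul_le_mul_of_nonneg_left h7 hc0.le
  exact ⟨fun x hx g hg => key x hx (g x) (act_mem g hx) fun i hi' => (hg x i hi').symm, UW_le_of_orbits (by omega) hn key⟩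

/-- The property `P(n,d)` for the metrics on `S^n` in a class `𝒞`. -/
def PCl (n d : ℕ) (𝒞 : (E n → E n → ℝ) → Prop) : Prop :=
  ∃ ε C : ℝ, 0 < ε ∧ ∀ ρ : E n → E n → ℝ, SMet n ρ → 𝒞 ρ →
    (∀ x ∈ Sn n, UW ρ d (bal n ρ x) < ENNReal.ofReal ε) → UW ρ (n - 1) (Sn n) ≤ ENNReal.ofReal C

theorem pcl {n k : ℕ} (hk : 3 ≤ k) (hkn : k ≤ n) {L : ℝ} (hL : 1 ≤ L) : PCl n (k - 1) (SLip n k L) := by
  have hk3 : (3 : ℝ) ≤ k := by exact_mod_cast hk
  have hk0 : (0 : ℝ) < k := by linarith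
  have hL0 : 0 < L := by linarith
  refine ⟨1 / (40 * L * (k : ℝ) ^ 2), 1 / 2, by positivity, fun ρ hρ h hw => ?_⟩
  have h1 := (sym_width hk hkn hL (η := 1 / (40 * L * (k : ℝ) ^ 2)) (by positivity) (by
    rw [mul_one_div_cancel (by positivity)]) hρ h hw).2
  have h2 : 20 * L * (k : ℝ) ^ 2 * (1 / (40 * L * (k : ℝ) ^ 2)) = 1 / 2 := by
    field_simp
    norm_num
  rw [h2] at h1
  exact (UW_mono ρ (by omega) _).trans h1

theorem pcl_rot {n : ℕ} (hn : 3 ≤ n) {L : ℝ} (hL : 1 ≤ L) (d : ℕ) : PCl n d (SLip n n L) ↔ d ≤ n - 1 := by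
  constructor
  · rintro ⟨ε, C, hε, H⟩
    by_contra hd
    obtain ⟨R, hR⟩ : ∃ R : ℝ, R = (|C| + 1) * Real.sqrt (n + 1) := ⟨_, rfl⟩
    have hs : 0 < Real.sqrt ((n : ℝ) + 1) := Real.sqrt_pos.2 (by positivity)
    have hR0 : 0 < R := by rw [hR]; positivity
    have hS := round_smet (n := n) hR0
    have h1 := H (rnd n R) hS (fun g hg _ x hx y hy => by
      rw [round_inv R n g hg x hx y hy]
      exact le_mul_of_one_le_left (Thm_nonneg hS hx hy) hL) fun x hx => by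
      rw [UW_zero (by omega) hS.self fun y hy => hy.1]
      exact ENNReal.ofReal_pos.2 hε
    have h2 := (round_width (n := n) (by omega) hR0).trans h1
    have h3 : 2 * R / Real.sqrt (n + 1) = 2 * (|C| + 1) := by
      rw [hR]
      field_simp
    rw [h3] at h2
    have h4 : ENNReal.ofReal C < ENNReal.ofReal (2 * (|C| + 1)) := by
      rw [ENNReal.ofReal_lt_ofReal_iff (by positivity)]
      have := le_abs_self C
      have := abs_nonneg C
      linarith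
    exact absurd h2 (not_le.2 h4)
  · intro hd
    obtain ⟨ε, C, hε, H⟩ := pcl hn le_rfl hL
    exact ⟨ε, C, hε, fun ρ hρ hi hw => H ρ hρ hi fun x hx => (UW_mono ρ hd _).trans_lt (hw x hx)⟩

end Pool.Agent.Lib.MP_cd4c70_gt
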