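import Pool.Agent.Lib.MP_cd4c70_gt.Pub
import Pool.Agent.Lib.MP_cd4c70_gt.Thm

/-!
# MP_cd4c70_gt, Br: from `EuclideanSpace` to functions
-/

namespace Pool.Agent.Lib.MP_cd4c70_gt

open Set Finset Pub
open scoped ENNReal Matrix RealInnerProductSpace

/-- The distance function on `E n` of a distance function of functions. -/
def up {n : ℕ} (ρ : (Fin (n + 1) → ℝ) → (Fin (n + 1) → ℝ) → ℝ) : E n → E n → ℝ := fun x y => ρ (WithLp.ofLp x) (WithLp.ofLp y)

theorem Br_Sn (n : ℕ) : Sn n = WithLp.ofLp ⁻¹' sphere n := by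
  ext x
  rw [mem_Sn]
  show ‖x‖ = 1 ↔ ∑ i, WithLp.ofLp x i ^ 2 = 1
  rw [← EuclideanSpace.real_norm_sq_eq]
  exact (pow_eq_one_iff_of_nonneg (norm_nonneg _) two_ne_zero).symm

theorem Br_mem {n : ℕ} (x : E n) : x ∈ Sn n ↔ WithLp.ofLp x ∈ sphere n := by
  rw [Br_Sn]
  rfl

theorem Br_mem' {n : ℕ} (x : Fin (n + 1) → ℝ) : (WithLp.toLp 2 x : E n) ∈ Sn n ↔ x ∈ sphere n := Br_mem _

theorem Br_width {n : ℕ} (ρ : (Fin (n + 1) → ℝ) → (Fin (n + 1) → ℝ) → ℝ) (d : ℕ) (S : Set (Fin (n + 1) → ℝ)) :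
    UW (up ρ) d (WithLp.ofLp ⁻¹' S) = width ρ d S := by
  have hskel : ∀ m, skel m d = skeleton m d := fun m => rfl
  refine le_antisymm ?_ ?_
  · unfold width
    refine le_iInf fun m => le_iInf fun π => le_iInf fun hπ => le_iInf fun hs => ?_
    unfold UW
    refine iInf_le_of_le m ?_
    refine iInf_le_of_le (fun x : E n => π (WithLp.ofLp x)) ?_
    refine iInf_le_of_le (hπ.comp (PiLp.continuous_ofLp 2 _).continuousOn fun x hx => hx) ?_
    refine iInf_le_of_le (fun x hx => hs hx) ?_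
    unfold fibreDiam
    refine iSup_le fun x => iSup_le fun hx => iSup_le fun y => iSup_le fun hy => iSup_le fun hxy => ?_
    exact le_iSup_of_le (WithLp.ofLp x) (le_iSup_of_le hx (le_iSup_of_le (WithLp.ofLp y) (le_iSup_of_le hy (le_iSup_of_le hxy le_rfl))))
  · unfold UW
    refine le_iInf fun m => le_iInf fun π => le_iInf fun hπ => le_iInf fun hs => ?_
    unfold width
    refine iInf_le_of_le m ?_
    refine iInf_le_of_le (fun x : Fin (n + 1) → ℝ => π (WithLp.toLp 2 x)) ?_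
    refine iInf_le_of_le (hπ.comp (PiLp.continuous_toLp 2 _).continuousOn fun x hx => hx) ?_
    refine iInf_le_of_le (fun x hx => hs _ hx) ?_
    unfold fibreDiam
    refine iSup_le fun x => iSup_le fun hx => iSup_le fun y => iSup_le fun hy => iSup_le fun hxy => ?_
    have hx' : (WithLp.toLp 2 x : E n) ∈ (WithLp.ofLp ⁻¹' S : Set (E n)) := hx
    have hy' : (WithLp.toLp 2 y : E n) ∈ (WithLp.ofLp ⁻¹' S : Set (E n)) := hy
    exact le_iSup_of_le (WithLp.toLp 2 x) (le_iSup_of_le hx' (le_iSup_of_le (WithLp.toLp 2 y) (le_iSup_of_le hy' (le_iSup_of_le hxy le_rfl))))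

theorem Br_smet {n : ℕ} {ρ : (Fin (n + 1) → ℝ) → (Fin (n + 1) → ℝ) → ℝ} (hρ : IsSphereMetric n ρ) : SMet n (up ρ) where
  self x hx := hρ.self _ ((Br_mem x).1 hx)
  pos x hx y hy hxy := hρ.pos _ ((Br_mem x).1 hx) _ ((Br_mem y).1 hy) fun h => hxy (WithLp.ofLp_injective 2 h)
  symm x hx y hy := hρ.symm _ ((Br_mem x).1 hx) _ ((Br_mem y).1 hy)
  tri x hx y hy z hz := hρ.tri _ ((Br_mem x).1 hx) _ ((Br_mem y).1 hy) _ ((Br_mem z).1 hz)
  cont x hx r hr := by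
    have h1 : ContinuousOn (fun y : E n => up ρ x y) (Sn n) := by
      have h2 : Continuous fun y : E n => (WithLp.ofLp x, WithLp.ofLp y) :=
        continuous_const.prodMk (PiLp.continuous_ofLp 2 _)
      exact hρ.cont.comp h2.continuousOn fun y hy => ⟨(Br_mem x).1 hx, (Br_mem y).1 hy⟩
    obtain ⟨δ, hδ, H⟩ := Metric.continuousOn_iff.1 h1 x hx r hr
    refine ⟨δ, hδ, fun y hy hd => ?_⟩
    have h3 := H y hy (by rw [dist_comm]; exact hd)
    have h4 : up ρ x x = 0 := hρ.self _ ((Br_mem x).1 hx)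
    rw [h4, Real.dist_eq, sub_zero] at h3
    exact (le_abs_self _).trans_lt h3

/-- The matrix of a linear isometry. -/
private theorem Br_matrix {n k : ℕ} (g : E n ≃ₗᵢ[ℝ] E n) (hg : Acts n k g)
    (hd : LinearMap.det (g.toLinearEquiv : E n →ₗ[ℝ] E n) = 1) :
    ∃ A, IsRotation n k A ∧ ∀ x : E n, WithLp.ofLp (g x) = A *ᵥ WithLp.ofLp x := by
  obtain ⟨b, hb⟩ : ∃ b : Module.Basis (Fin (n + 1)) ℝ (E n), b = (EuclideanSpace.basisFun (Fin (n + 1)) ℝ).toBasis := ⟨_, rfl⟩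
  have hbi : ∀ j, b j = EuclideanSpace.single j (1 : ℝ) := fun j => by
    rw [hb]
    simp
  have hrepr : ∀ (x : E n) (i), b.repr x i = x i := fun x i => by
    rw [hb]
    simp
  obtain ⟨A, hA⟩ : ∃ A : Matrix (Fin (n + 1)) (Fin (n + 1)) ℝ, A = LinearMap.toMatrix b b (g.toLinearEquiv : E n →ₗ[ℝ] E n) := ⟨_, rfl⟩
  have hAij : ∀ i j, A i j = g (EuclideanSpace.single j (1 : ℝ)) i := fun i j => by
    rw [hA, LinearMap.toMatrix_apply, hbi, hrepr]
    rfl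
  have hmul : ∀ x : E n, WithLp.ofLp (g x) = A *ᵥ WithLp.ofLp x := by
    intro x
    have h1 := LinearMap.toMatrix_mulVec_repr b b (g.toLinearEquiv : E n →ₗ[ℝ] E n) x
    funext i
    have h2 := congrFun h1 i
    rw [hrepr] at h2
    rw [← hA] at h2
    have h3 : (⇑(b.repr x) : Fin (n + 1) → ℝ) = WithLp.ofLp x := funext fun i => hrepr x i
    rw [h3] at h2
    exact h2.symm
  refine ⟨A, ⟨?_, ?_, ?_⟩, hmul⟩
  · ext j l
    rw [Matrix.mul_apply]
    have h1 := LinearIsometryEquiv.inner_map_map g (EuclideanSpace.single j (1 : ℝ)) (EuclideanSpace.single l (1 : ℝ))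
    rw [PiLp.inner_apply] at h1
    have h2 : ∑ i, Aᵀ j i * A i l = ∑ i, ⟪(g (EuclideanSpace.single j (1 : ℝ))) i, (g (EuclideanSpace.single l (1 : ℝ))) i⟫ := by
      refine Finset.sum_congr rfl fun i _ => ?_
      rw [Matrix.transpose_apply, hAij, hAij]
      simp [mul_comm]
    rw [h2, h1, EuclideanSpace.inner_single_left]
    simp [Matrix.one_apply]
  · rw [hA, LinearMap.det_toMatrix]
    exact hd
  · intro i j hi
    rw [hAij, hg _ i hi]
    simp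

theorem Br_slip {n k : ℕ} {L : ℝ} {ρ : (Fin (n + 1) → ℝ) → (Fin (n + 1) → ℝ) → ℝ} (h : RotLipschitz n k L ρ) : SLip n k L (up ρ) := by
  intro g hg hd x hx y hy
  obtain ⟨A, hA, hm⟩ := Br_matrix g hg hd
  show ρ (WithLp.ofLp (g x)) (WithLp.ofLp (g y)) ≤ L * ρ (WithLp.ofLp x) (WithLp.ofLp y)
  rw [hm, hm]
  exact h A hA _ ((Br_mem x).1 hx) _ ((Br_mem y).1 hy)

theorem Br_local {n d : ℕ} {η : ℝ} {ρ : (Fin (n + 1) → ℝ) → (Fin (n + 1) → ℝ) → ℝ} (h : LocalWidth n d η ρ) :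
    ∀ x ∈ Sn n, UW (up ρ) d (bal n (up ρ) x) < ENNReal.ofReal η := by
  intro x hx
  have h1 : bal n (up ρ) x = WithLp.ofLp ⁻¹' {y | y ∈ sphere n ∧ ρ (WithLp.ofLp x) y ≤ 1} := by
    ext y
    show y ∈ Sn n ∧ _ ↔ _
    rw [Br_mem]
    rfl
  rw [h1, Br_width]
  exact h _ ((Br_mem x).1 hx)

/-- The local-to-global inequality. -/
theorem pub_width {k n : ℕ} (hk : 3 ≤ k) (hn : k ≤ n) {L η : ℝ} (hL : 1 ≤ L) (hη : 0 < η)
    (hη1 : 40 * L * (k : ℝ) ^ 2 * η ≤ 1) {ρ : (Fin (n + 1) → ℝ) → (Fin (n + 1) → ℝ) → ℝ} (hρ : IsSphereMetric n ρ)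
    (h : RotLipschitz n k L ρ) (hw : LocalWidth n (k - 1) η ρ) :
    width ρ (n + 1 - k) (sphere n) ≤ ENNReal.ofReal (20 * L * (k : ℝ) ^ 2 * η) := by
  have h1 := (sym_width hk hn hL hη hη1 (Br_smet hρ) (Br_slip h) (Br_local hw)).2
  rwa [Br_Sn, Br_width] at h1

theorem width_mono {n : ℕ} (ρ : (Fin (n + 1) → ℝ) → (Fin (n + 1) → ℝ) → ℝ) {d d' : ℕ} (h : d ≤ d') (S : Set (Fin (n + 1) → ℝ)) :
    width ρ d' S ≤ width ρ d S := by
  rw [← Br_width, ← Br_width]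
  exact UW_mono _ h _

theorem pub_prot {n k : ℕ} (hk : 3 ≤ k) (hkn : k ≤ n) {L : ℝ} (hL : 1 ≤ L) : PRot n (k - 1) k L := by
  have hk3 : (3 : ℝ) ≤ k := by exact_mod_cast hk
  have hk0 : (0 : ℝ) < k := by linarith
  have hL0 : 0 < L := by linarith
  refine ⟨1 / (40 * L * (k : ℝ) ^ 2), 1 / 2, by positivity, fun ρ hρ h hw => ?_⟩
  have h1 := pub_width hk hkn hL (η := 1 / (40 * L * (k : ℝ) ^ 2)) (by positivity) (by
    rw [mul_one_div_cancel (by positivity)]) hρ h hw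
  have h2 : 20 * L * (k : ℝ) ^ 2 * (1 / (40 * L * (k : ℝ) ^ 2)) = 1 / 2 := by
    field_simp
    norm_num
  rw [h2] at h1
  exact (width_mono ρ (by omega) _).trans h1

private theorem Br_inner {n : ℕ} {A : Matrix (Fin (n + 1)) (Fin (n + 1)) ℝ} (hA : Aᵀ * A = 1) (x y : Fin (n + 1) → ℝ) :
    ⟪(WithLp.toLp 2 (A *ᵥ x) : E n), WithLp.toLp 2 (A *ᵥ y)⟫ = ⟪(WithLp.toLp 2 x : E n), WithLp.toLp 2 y⟫ := by
  have h0 : ∀ u v : Fin (n + 1) → ℝ, ⟪(WithLp.toLp 2 u : E n), WithLp.toLp 2 v⟫ = u ⬝ᵥ v := fun u v => by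
    rw [PiLp.inner_apply]
    unfold dotProduct
    refine Finset.sum_congr rfl fun i _ => ?_
    simp [mul_comm]
  rw [h0, h0, Matrix.dotProduct_mulVec, ← Matrix.mulVec_transpose, Matrix.mulVec_mulVec, hA, Matrix.one_mulVec]

/-- The round sphere of radius `R`. -/
noncomputable def down (n : ℕ) (R : ℝ) (x y : Fin (n + 1) → ℝ) : ℝ := rnd n R (WithLp.toLp 2 x) (WithLp.toLp 2 y)

theorem down_up (n : ℕ) (R : ℝ) : up (down n R) = rnd n R := rfl

theorem down_metric {n : ℕ} {R : ℝ} (hR : 0 < R) : IsSphereMetric n (down n R) where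
  self x hx := (round_smet hR).self _ ((Br_mem' x).2 hx)
  pos x hx y hy hxy := (round_smet hR).pos _ ((Br_mem' x).2 hx) _ ((Br_mem' y).2 hy) fun h => hxy (WithLp.toLp_injective 2 h)
  symm x hx y hy := (round_smet hR).symm _ ((Br_mem' x).2 hx) _ ((Br_mem' y).2 hy)
  tri x hx y hy z hz := (round_smet hR).tri _ ((Br_mem' x).2 hx) _ ((Br_mem' y).2 hy) _ ((Br_mem' z).2 hz)
  cont := smet_cont (round_smet hR) ((PiLp.continuous_toLp 2 _).comp continuous_fst).continuousOn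
    ((PiLp.continuous_toLp 2 _).comp continuous_snd).continuousOn (fun x hx => (Br_mem' x.1).2 hx.1) fun x hx => (Br_mem' x.2).2 hx.2

theorem down_rot {n k : ℕ} {L R : ℝ} (hR : 0 < R) (hL : 1 ≤ L) : RotLipschitz n k L (down n R) := by
  intro A hA x hx y hy
  have h1 : down n R (A *ᵥ x) (A *ᵥ y) = down n R x y := by
    unfold down rnd InnerProductGeometry.angle
    rw [Br_inner hA.1, norm_eq_sqrt_real_inner (WithLp.toLp 2 (A *ᵥ x) : E n), norm_eq_sqrt_real_inner (WithLp.toLp 2 (A *ᵥ y) : E n),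
      Br_inner hA.1, Br_inner hA.1, ← norm_eq_sqrt_real_inner, ← norm_eq_sqrt_real_inner]
  rw [h1]
  exact le_mul_of_one_le_left (Thm_nonneg (round_smet hR) ((Br_mem' x).2 hx) ((Br_mem' y).2 hy)) hL

theorem pub_rot {n : ℕ} (hn : 3 ≤ n) {L : ℝ} (hL : 1 ≤ L) (d : ℕ) : PRot n d n L ↔ d ≤ n - 1 := by
  constructor
  · rintro ⟨ε, C, hε, H⟩
    by_contra hd
    obtain ⟨R, hR⟩ : ∃ R : ℝ, R = (|C| + 1) * Real.sqrt (n + 1) := ⟨_, rfl⟩
    have hs : 0 < Real.sqrt ((n : ℝ) + 1) := Real.sqrt_pos.2 (by positivity)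
    have hR0 : 0 < R := by rw [hR]; positivity
    have h1 := H (down n R) (down_metric hR0) (down_rot hR0 hL) fun x hx => by
      rw [← Br_width, down_up, UW_zero (by omega) (round_smet hR0).self fun y hy => (Br_mem y).2 hy.1]
      exact ENNReal.ofReal_pos.2 hε
    rw [← Br_width, down_up, ← Br_Sn] at h1
    have h2 := (round_width (n := n) (by omega) hR0).trans h1
    have h3 : 2 * R / Real.sqrt (n + 1) = 2 * (|C| + 1) := by
      rw [hR]
      field_simp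
    rw [h3] at h2
    have h4 : ENNReal.ofReal C < ENNReal.ofReal (2 * (|C| + 1)) := by
      rw [ENNReal.ofReal_lt_ofReal_iff (by positivity)]
      have := le_abs_self C
      have := abs_nonneg C
      linarith
    exact absurd h2 (not_le.2 h4)
  · intro hd
    obtain ⟨ε, C, hε, H⟩ := pub_prot hn le_rfl hL
    exact ⟨ε, C, hε, fun ρ hρ hi hw => H ρ hρ hi fun x hx => (width_mono ρ hd _).trans_lt (hw x hx)⟩

end Pool.Agent.Lib.MP_cd4c70_gt
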