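import Pool.Agent.Lib.MP_cd4c70_gt.Defs

/-!
# MP_cd4c70_gt, Two: auxiliary unit vectors
-/

namespace Pool.Agent.Lib.MP_cd4c70_gt

open Set Finset
open scoped RealInnerProductSpace

private noncomputable def iota (n k : ℕ) : (Fin k → ℝ) →ₗ[ℝ] E n :=
  (WithLp.linearEquiv 2 ℝ (Fin (n + 1) → ℝ)).symm.toLinearMap ∘ₗ
    LinearMap.pi (fun i => if h : i.val < k then (LinearMap.proj ⟨i.val, h⟩ : (Fin k → ℝ) →ₗ[ℝ] ℝ) else 0)

private theorem iota_lt {n k : ℕ} (b : Fin k → ℝ) (i : Fin (n + 1)) (h : i.val < k) : iota n k b i = b ⟨i.val, h⟩ := by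
  simp [iota, h]

private theorem iota_ge {n k : ℕ} (b : Fin k → ℝ) (i : Fin (n + 1)) (h : k ≤ i.val) : iota n k b i = 0 := by
  simp [iota, not_lt.mpr h]

theorem exists_perp {n k : ℕ} (hk : 3 ≤ k) (hkn : k ≤ n + 1) (p q : E n) : ∃ w ∈ MU n k, ⟪p, w⟫ = 0 ∧ ⟪q, w⟫ = 0 := by
  let F : (Fin k → ℝ) →ₗ[ℝ] (Fin 2 → ℝ) :=
    LinearMap.pi (fun i => if i = 0 then (innerₛₗ ℝ p) ∘ₗ iota n k else (innerₛₗ ℝ q) ∘ₗ iota n k)
  have hF : LinearMap.ker F ≠ ⊥ := by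
    apply LinearMap.ker_ne_bot_of_finrank_lt
    simp
    omega
  obtain ⟨b, hb, hb0⟩ := (Submodule.ne_bot_iff _).mp hF
  rw [LinearMap.mem_ker] at hb
  have h0 : ⟪p, iota n k b⟫ = 0 := by
    have := congrFun hb 0
    simpa [F] using this
  have h1 : ⟪q, iota n k b⟫ = 0 := by
    have := congrFun hb 1
    simpa [F] using this
  have hne : iota n k b ≠ 0 := by
    intro hz
    apply hb0
    funext j
    have hj : j.val < n + 1 := lt_of_lt_of_le j.2 hkn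
    have := iota_lt b (⟨j.val, hj⟩ : Fin (n + 1)) j.2
    rw [hz] at this
    simpa using this.symm
  refine ⟨‖iota n k b‖⁻¹ • iota n k b, ⟨norm_smul_inv_norm hne, ?_⟩, ?_, ?_⟩
  · intro i hi
    simp [iota_ge b i hi]
  · rw [inner_smul_right, h0, mul_zero]
  · rw [inner_smul_right, h1, mul_zero]

private theorem mem_of {n k : ℕ} {v : E n} (h1 : ⟪v, v⟫ = 1) (h2 : ∀ i : Fin (n + 1), k ≤ i.val → v i = 0) : v ∈ MU n k := by
  refine ⟨?_, h2⟩
  have h3 : ‖v‖ ^ 2 = 1 := by rw [← real_inner_self_eq_norm_sq, h1]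
  have h4 := norm_nonneg v
  nlinarith

private theorem inner_one {n k : ℕ} {v : E n} (hv : v ∈ MU n k) : ⟪v, v⟫ = 1 := by
  rw [real_inner_self_eq_norm_sq, hv.1, one_pow]

private theorem bounds {n k : ℕ} {p q : E n} (hp : p ∈ MU n k) (hq : q ∈ MU n k) : -1 ≤ ⟪p, q⟫ ∧ ⟪p, q⟫ ≤ 1 := by
  have h := abs_real_inner_le_norm p q
  rw [hp.1, hq.1, one_mul] at h
  exact abs_le.mp h

theorem exists_two {n k : ℕ} (hk : 3 ≤ k) (hkn : k ≤ n + 1) {p q : E n} (hp : p ∈ MU n k) (hq : q ∈ MU n k) {e : ℝ}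
    (he : 0 ≤ e) (h : 2 * e ^ 2 - 1 ≤ ⟪p, q⟫) : ∃ r ∈ MU n k, ⟪p, r⟫ = e ∧ ⟪r, q⟫ = e := by
  obtain ⟨w, hw, hpw, hqw⟩ := exists_perp hk hkn p q
  have hpp := inner_one hp
  have hqq := inner_one hq
  have hww := inner_one hw
  obtain ⟨hc1, hc2⟩ := bounds hp hq
  have hqp : ⟪q, p⟫ = ⟪p, q⟫ := real_inner_comm p q
  have hwp : ⟪w, p⟫ = 0 := by rw [real_inner_comm, hpw]
  have hwq : ⟪w, q⟫ = 0 := by rw [real_inner_comm, hqw]
  set c : ℝ := ⟪p, q⟫ with hc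
  rcases eq_or_lt_of_le hc1 with h0 | h0
  · have he0 : e = 0 := by nlinarith [sq_nonneg e]
    exact ⟨w, hw, by rw [hpw, he0], by rw [hwq, he0]⟩
  · have hpos : 0 < 1 + c := by linarith
    set α : ℝ := e / (1 + c) with hα
    have hαe : α * (1 + c) = e := div_mul_cancel₀ _ hpos.ne'
    have hle : 0 ≤ 1 - α * (2 * e) := by
      have : α * (2 * e) = 2 * e ^ 2 / (1 + c) := by rw [hα]; ring
      rw [this, sub_nonneg, div_le_one hpos]
      linarith
    set β : ℝ := √(1 - α * (2 * e)) with hβ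
    have hβ2 : β * β = 1 - α * (2 * e) := Real.mul_self_sqrt hle
    refine ⟨α • (p + q) + β • w, mem_of ?_ ?_, ?_, ?_⟩
    · simp only [inner_add_left, inner_add_right, inner_smul_left, inner_smul_right, hpp, hqq, hww, hpw, hqw, hwp, hwq, hqp,
        conj_trivial, ← hc]
      have : α * (α * (1 + c + (c + 1))) = α * (2 * e) := by rw [← hαe]; ring
      linear_combination this + hβ2
    · intro i hi
      simp [hp.2 i hi, hq.2 i hi, hw.2 i hi]
    · simp only [inner_add_right, inner_smul_right, hpp, hpw, ← hc]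
      linear_combination hαe
    · simp only [inner_add_left, inner_smul_left, hqq, hwq, conj_trivial, ← hc]
      linear_combination hαe

theorem exists_half {n k : ℕ} {p q : E n} (hp : p ∈ MU n k) (hq : q ∈ MU n k) (h : 0 ≤ ⟪p, q⟫) :
    ∃ m ∈ MU n k, (1 + ⟪p, q⟫) / 2 ≤ ⟪p, m⟫ ∧ (1 + ⟪p, q⟫) / 2 ≤ ⟪m, q⟫ := by
  have hpp := inner_one hp
  have hqq := inner_one hq
  obtain ⟨hc1, hc2⟩ := bounds hp hq
  have hqp : ⟪q, p⟫ = ⟪p, q⟫ := real_inner_comm p q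
  set c : ℝ := ⟪p, q⟫ with hc
  set δ : ℝ := √(2 * (1 + c)) with hδ
  have hδ2 : δ * δ = 2 * (1 + c) := Real.mul_self_sqrt (by linarith)
  have hδ0 : 0 < δ := Real.sqrt_pos.mpr (by linarith)
  have hδle : δ ≤ 2 := by nlinarith
  have key : (1 + c) / 2 ≤ δ⁻¹ * (1 + c) := by
    have h1 : (1 : ℝ) / 2 ≤ δ⁻¹ := by
      rw [one_div]
      exact inv_anti₀ hδ0 hδle
    have h2 : 0 ≤ 1 + c := by linarith
    nlinarith
  refine ⟨δ⁻¹ • (p + q), mem_of ?_ ?_, ?_, ?_⟩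
  · simp only [inner_add_left, inner_add_right, inner_smul_left, inner_smul_right, hpp, hqq, hqp, conj_trivial, ← hc]
    field_simp
    linarith
  · intro i hi
    simp [hp.2 i hi, hq.2 i hi]
  · simp only [inner_add_right, inner_smul_right, hpp, ← hc]
    linarith
  · simp only [inner_add_left, inner_smul_left, hqq, conj_trivial, ← hc]
    linarith

theorem exists_turn {n k : ℕ} (hk : 3 ≤ k) (hkn : k ≤ n + 1) {p p' : E n} (hp : p ∈ MU n k) (hp' : p' ∈ MU n k) :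
    ∃ q ∈ MU n k, ⟪q, p'⟫ = ⟪p, p'⟫ ∧ ⟪p, q⟫ = ⟪p, p'⟫ ^ 2 := by
  obtain ⟨w, hw, hpw, hqw⟩ := exists_perp hk hkn p p'
  have hqq := inner_one hp'
  have hww := inner_one hw
  obtain ⟨hc1, hc2⟩ := bounds hp hp'
  have hwq : ⟪w, p'⟫ = 0 := by rw [real_inner_comm, hqw]
  set c : ℝ := ⟪p, p'⟫ with hc
  have hle : 0 ≤ 1 - c * c := by nlinarith
  set β : ℝ := √(1 - c * c) with hβ
  have hβ2 : β * β = 1 - c * c := Real.mul_self_sqrt hle
  refine ⟨c • p' + β • w, mem_of ?_ ?_, ?_, ?_⟩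
  · simp only [inner_add_left, inner_add_right, inner_smul_left, inner_smul_right, hqq, hww, hqw, hwq, conj_trivial]
    linear_combination hβ2
  · intro i hi
    simp [hp'.2 i hi, hw.2 i hi]
  · simp only [inner_add_left, inner_smul_left, hqq, hwq, conj_trivial]
    ring
  · simp only [inner_add_right, inner_smul_right, hpw, ← hc]
    ring

end Pool.Agent.Lib.MP_cd4c70_gt
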