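import Pool.Agent.Lib.MP_cd4c70_gt.Ref
import Pool.Agent.Lib.MP_cd4c70_gt.Two

/-!
# MP_cd4c70_gt, Chain: invariant distance functions on `S^(k-1)`
-/

namespace Pool.Agent.Lib.MP_cd4c70_gt

open Set Finset
open scoped RealInnerProductSpace

private theorem Chain_eq {n k : ℕ} {σ : E n → E n → ℝ}
    (hi : ∀ g : E n ≃ₗᵢ[ℝ] E n, Acts n k g → ∀ p ∈ MU n k, ∀ q ∈ MU n k, σ (g p) (g q) = σ p q)
    {p q x y : E n} (hp : p ∈ MU n k) (hq : q ∈ MU n k) (hx : x ∈ MU n k) (hy : y ∈ MU n k)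
    (h : ⟪p, q⟫ = ⟪x, y⟫) : σ x y = σ p q := by
  obtain ⟨g, hg, h1, h2⟩ := exists_act hp hq hx hy h
  rw [← h1, ← h2]
  exact hi g hg p hp q hq

private theorem Chain_ge {n k : ℕ} {x y : E n} (hx : x ∈ MU n k) (hy : y ∈ MU n k) : -1 ≤ ⟪x, y⟫ := by
  have h1 := abs_real_inner_le_norm x y
  rw [hx.1, hy.1, mul_one] at h1
  exact (abs_le.1 h1).1

theorem chain (e0 : ℝ) (h0 : 0 ≤ e0) (h1 : e0 < 1) : ∃ N : ℝ, 1 ≤ N ∧ N * (1 - e0 ^ 2) ≤ 4 ∧ ∀ (n k : ℕ), 3 ≤ k → k ≤ n + 1 →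
    ∀ σ : E n → E n → ℝ, (∀ p ∈ MU n k, ∀ q ∈ MU n k, 0 ≤ σ p q) →
    (∀ p ∈ MU n k, ∀ q ∈ MU n k, ∀ r ∈ MU n k, σ p r ≤ σ p q + σ q r) →
    (∀ g : E n ≃ₗᵢ[ℝ] E n, Acts n k g → ∀ p ∈ MU n k, ∀ q ∈ MU n k, σ (g p) (g q) = σ p q) →
    ∀ p ∈ MU n k, ∀ q ∈ MU n k, 0 ≤ ⟪p, q⟫ → ⟪p, q⟫ ≤ e0 → ∀ x ∈ MU n k, ∀ y ∈ MU n k, σ x y ≤ N * σ p q := by
  obtain ⟨δ, hδ⟩ : ∃ δ : ℝ, δ = 2 * (1 - e0 ^ 2) := ⟨_, rfl⟩
  have hδ0 : 0 < δ := by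
    rw [hδ]
    nlinarith
  have hex : ∃ j : ℕ, 1 ≤ 2 ^ j * δ := by
    obtain ⟨j, hj⟩ := pow_unbounded_of_one_lt (1 / δ) (by norm_num : (1 : ℝ) < 2)
    rw [div_lt_iff₀ hδ0] at hj
    exact ⟨j, hj.le⟩
  obtain ⟨j, hj1, hj2⟩ : ∃ j : ℕ, 1 ≤ 2 ^ j * δ ∧ 4 * 2 ^ j * (1 - e0 ^ 2) ≤ 4 := by
    classical
    refine ⟨Nat.find hex, Nat.find_spec hex, ?_⟩
    rcases Nat.eq_zero_or_pos (Nat.find hex) with h | h
    · rw [h, pow_zero]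
      nlinarith [sq_nonneg e0]
    · obtain ⟨i, hi⟩ := Nat.exists_eq_succ_of_ne_zero h.ne'
      have h2 := Nat.find_min hex (m := i) (by omega)
      rw [hi, pow_succ]
      rw [not_le, hδ] at h2
      linarith
  have h2j : (1 : ℝ) ≤ 2 ^ j := one_le_pow₀ (by norm_num)
  refine ⟨4 * 2 ^ j, by linarith, hj2, ?_⟩
  intro n k hk hkn σ _ ht hi p hp q hq hc0 hce x hx y hy
  have hbase : ∀ x ∈ MU n k, ∀ y ∈ MU n k, 2 * ⟪p, q⟫ ^ 2 - 1 ≤ ⟪x, y⟫ → σ x y ≤ 2 * σ p q := by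
    intro x hx y hy hxy
    obtain ⟨r, hr, h3, h4⟩ := exists_two hk hkn hx hy hc0 hxy
    have h5 := ht x hx r hr y hy
    rw [Chain_eq hi hp hq hx hr h3.symm, Chain_eq hi hp hq hr hy h4.symm] at h5
    linarith
  have hind : ∀ i : ℕ, ∀ x ∈ MU n k, ∀ y ∈ MU n k, 0 ≤ ⟪x, y⟫ → 1 - 2 ^ i * δ ≤ ⟪x, y⟫ →
      σ x y ≤ 2 ^ i * (2 * σ p q) := by
    intro i
    induction i with
    | zero =>
      intro x hx y hy _ hxy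
      rw [pow_zero, one_mul]
      refine hbase x hx y hy ?_
      rw [pow_zero, one_mul, hδ] at hxy
      nlinarith
    | succ i ih =>
      intro x hx y hy h3 h4
      obtain ⟨m, hm, h5, h6⟩ := exists_half hx hy h3
      rw [pow_succ] at h4
      have h7 := ih x hx m hm (by linarith) (by linarith)
      have h8 := ih m hm y hy (by linarith) (by linarith)
      have h9 := ht x hx m hm y hy
      rw [pow_succ]
      linarith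
  have hpos : ∀ x ∈ MU n k, ∀ y ∈ MU n k, 0 ≤ ⟪x, y⟫ → σ x y ≤ 2 ^ j * (2 * σ p q) :=
    fun x hx y hy h => hind j x hx y hy h (by linarith)
  obtain ⟨r, hr, h3, h4⟩ := exists_two hk hkn hx hy le_rfl
    (show 2 * (0 : ℝ) ^ 2 - 1 ≤ ⟪x, y⟫ by
      have := Chain_ge hx hy
      linarith)
  have h5 := ht x hx r hr y hy
  have h6 := hpos x hx r hr h3.ge
  have h7 := hpos r hr y hy h4.ge
  linarith

/-- Two steps with a right angle. -/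
theorem right_angle {n k : ℕ} (hk : 3 ≤ k) (hkn : k ≤ n + 1) {σ : E n → E n → ℝ}
    (ht : ∀ p ∈ MU n k, ∀ q ∈ MU n k, ∀ r ∈ MU n k, σ p r ≤ σ p q + σ q r)
    (hi : ∀ g : E n ≃ₗᵢ[ℝ] E n, Acts n k g → ∀ p ∈ MU n k, ∀ q ∈ MU n k, σ (g p) (g q) = σ p q)
    {p q : E n} (hp : p ∈ MU n k) (hq : q ∈ MU n k) (hpq : ⟪p, q⟫ = 0) {x y : E n} (hx : x ∈ MU n k) (hy : y ∈ MU n k) :
    σ x y ≤ 2 * σ p q := by
  obtain ⟨r, hr, h3, h4⟩ := exists_two hk hkn hx hy le_rfl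
    (show 2 * (0 : ℝ) ^ 2 - 1 ≤ ⟪x, y⟫ by
      have := Chain_ge hx hy
      linarith)
  have h5 := ht x hx r hr y hy
  rw [Chain_eq hi hp hq hx hr (hpq.trans h3.symm), Chain_eq hi hp hq hr hy (hpq.trans h4.symm)] at h5
  linarith

end Pool.Agent.Lib.MP_cd4c70_gt
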