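import Pool.Agent.Lib.MP_cd4c70_gt.Defs

/-!
# MP_cd4c70_gt, Cut: choice of parameters on an interval
-/

namespace Pool.Agent.Lib.MP_cd4c70_gt

open Set Finset

theorem times {f : ℝ → ℝ} (hf : ContinuousOn f (Icc 0 1)) (h0 : f 0 = 0) (h1 : 1 / 4 < f 1) :
    ∃ s t : ℝ, 0 ≤ s ∧ s < t ∧ t ≤ 1 ∧ f s = 1 / 16 ∧ f t = 1 / 4 ∧ ∀ τ ∈ Icc s t, 1 / 16 ≤ f τ ∧ f τ ≤ 1 / 4 := by
  have hT : IsClosed (Icc (0 : ℝ) 1 ∩ f ⁻¹' Ici (1 / 4)) :=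
    hf.preimage_isClosed_of_isClosed isClosed_Icc isClosed_Ici
  have hTc : IsCompact (Icc (0 : ℝ) 1 ∩ f ⁻¹' Ici (1 / 4)) :=
    isCompact_Icc.of_isClosed_subset hT inter_subset_left
  obtain ⟨t, ht, htl⟩ := hTc.exists_isLeast ⟨1, ⟨⟨zero_le_one, le_rfl⟩, h1.le⟩⟩
  have ht0 : 0 ≤ t := ht.1.1
  have ht1 : t ≤ 1 := ht.1.2
  have htf : 1 / 4 ≤ f t := ht.2
  have hlt : ∀ τ, 0 ≤ τ → τ < t → f τ < 1 / 4 := by
    intro τ h2 h3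
    by_contra h4
    have h5 : t ≤ τ := htl ⟨⟨h2, h3.le.trans ht1⟩, not_lt.1 h4⟩
    linarith
  have hft : f t = 1 / 4 := by
    have h2 : ContinuousOn f (Icc 0 t) := hf.mono (Icc_subset_Icc_right ht1)
    obtain ⟨x, hx, hxf⟩ := intermediate_value_Icc ht0 h2
      (show (1 / 4 : ℝ) ∈ Icc (f 0) (f t) from ⟨by rw [h0]; norm_num, htf⟩)
    have h3 : t ≤ x := htl ⟨⟨hx.1, hx.2.trans ht1⟩, hxf.ge⟩
    have h4 : x = t := le_antisymm hx.2 h3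
    rw [← h4, hxf]
  have hct : ContinuousOn f (Icc 0 t) := hf.mono (Icc_subset_Icc_right ht1)
  have hS : IsClosed (Icc (0 : ℝ) t ∩ f ⁻¹' Iic (1 / 16)) :=
    hct.preimage_isClosed_of_isClosed isClosed_Icc isClosed_Iic
  have hSc : IsCompact (Icc (0 : ℝ) t ∩ f ⁻¹' Iic (1 / 16)) :=
    isCompact_Icc.of_isClosed_subset hS inter_subset_left
  obtain ⟨s, hs, hsl⟩ := hSc.exists_isGreatest
    ⟨0, ⟨⟨le_rfl, ht0⟩, by show f 0 ≤ 1 / 16; rw [h0]; norm_num⟩⟩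
  have hs0 : 0 ≤ s := hs.1.1
  have hst : s ≤ t := hs.1.2
  have hsf : f s ≤ 1 / 16 := hs.2
  have hfs : f s = 1 / 16 := by
    have h2 : ContinuousOn f (Icc s t) := hct.mono (Icc_subset_Icc_left hs0)
    obtain ⟨x, hx, hxf⟩ := intermediate_value_Icc hst h2
      (show (1 / 16 : ℝ) ∈ Icc (f s) (f t) from ⟨hsf, by rw [hft]; norm_num⟩)
    have h3 : x ≤ s := hsl ⟨⟨hs0.trans hx.1, hx.2⟩, hxf.le⟩
    have h4 : x = s := le_antisymm h3 hx.1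
    rw [← h4, hxf]
  have hlt' : s < t := by
    refine lt_of_le_of_ne hst ?_
    intro h2
    rw [h2, hft] at hfs
    norm_num at hfs
  refine ⟨s, t, hs0, hlt', ht1, hfs, hft, fun τ hτ => ⟨?_, ?_⟩⟩
  · by_contra h2
    have h3 : τ ≤ s := hsl ⟨⟨hs0.trans hτ.1, hτ.2⟩, (not_le.1 h2).le⟩
    have h4 : τ = s := le_antisymm h3 hτ.1
    rw [h4, hfs] at h2
    exact h2 le_rfl
  · rcases hτ.2.lt_or_eq with h2 | h2
    · exact (hlt τ (hs0.trans hτ.1) h2).le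
    · rw [h2, hft]

theorem cut {Q : Type} (D : ℝ → Q → ℝ) {s t w v : ℝ} (hst : s < t) (hv : 0 ≤ v) (hc : ∀ q, ContinuousOn (fun τ => D τ q) (Icc s t))
    (hs : ∀ q, w ≤ D s q) (ht : ∃ q, D t q < w) (hd : ∀ τ ∈ Icc s t, ∀ q q', D τ q' ≤ D τ q + v) :
    ∃ s' : ℝ, s ≤ s' ∧ s' < t ∧ (∀ q, w ≤ D s' q) ∧ ∀ τ ∈ Icc s' t, ∀ q, D τ q ≤ w + v := by
  have hT : IsClosed (Icc s t ∩ ⋂ q, (Icc s t ∩ (fun τ => D τ q) ⁻¹' Ici w)) :=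
    isClosed_Icc.inter (isClosed_iInter fun q =>
      (hc q).preimage_isClosed_of_isClosed isClosed_Icc isClosed_Ici)
  have hTc : IsCompact (Icc s t ∩ ⋂ q, (Icc s t ∩ (fun τ => D τ q) ⁻¹' Ici w)) :=
    isCompact_Icc.of_isClosed_subset hT inter_subset_left
  have hmem : ∀ τ, τ ∈ Icc s t → (∀ q, w ≤ D τ q) →
      τ ∈ Icc s t ∩ ⋂ q, (Icc s t ∩ (fun τ => D τ q) ⁻¹' Ici w) :=
    fun τ h1 h2 => ⟨h1, mem_iInter.2 fun q => ⟨h1, h2 q⟩⟩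
  obtain ⟨s', hs', hsl⟩ := hTc.exists_isGreatest ⟨s, hmem s ⟨le_rfl, hst.le⟩ hs⟩
  have hD : ∀ q, w ≤ D s' q := fun q => (mem_iInter.1 hs'.2 q).2
  have hlt : s' < t := by
    refine lt_of_le_of_ne hs'.1.2 ?_
    rintro rfl
    obtain ⟨q, hq⟩ := ht
    exact absurd (hD q) (not_le.2 hq)
  refine ⟨s', hs'.1.1, hlt, hD, fun τ hτ q => ?_⟩
  have hsub : Icc s' t ⊆ Icc s t := Icc_subset_Icc_left hs'.1.1
  have hC : IsClosed (Icc s' t ∩ (fun τ => D τ q) ⁻¹' Iic (w + v)) :=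
    ((hc q).mono hsub).preimage_isClosed_of_isClosed isClosed_Icc isClosed_Iic
  have hI : Ioc s' t ⊆ Icc s' t ∩ (fun τ => D τ q) ⁻¹' Iic (w + v) := by
    intro x hx
    refine ⟨⟨hx.1.le, hx.2⟩, ?_⟩
    have h1 : x ∈ Icc s t := hsub ⟨hx.1.le, hx.2⟩
    have h2 : ∃ q0, D x q0 < w := by
      by_contra h3
      push Not at h3
      have h4 : x ≤ s' := hsl (hmem x h1 h3)
      exact absurd hx.1 (not_lt.2 h4)
    obtain ⟨q0, hq0⟩ := h2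
    have h5 := hd x h1 q0 q
    show D x q ≤ w + v
    linarith
  have hcl : closure (Ioc s' t) ⊆ Icc s' t ∩ (fun τ => D τ q) ⁻¹' Iic (w + v) :=
    closure_minimal hI hC
  rw [closure_Ioc hlt.ne] at hcl
  exact (hcl hτ).2

end Pool.Agent.Lib.MP_cd4c70_gt
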