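import Mathlib

/-!
# MP_cd4c70_gt: Urysohn widths of spheres with symmetric metrics, definitions
-/

namespace Pool.Agent.Lib.MP_cd4c70_gt

open Set Finset
open scoped ENNReal

/-- Euclidean space `ℝ^(n+1)`. -/
abbrev E (n : ℕ) : Type := EuclideanSpace ℝ (Fin (n + 1))

/-- The sphere `S^n`. -/
def Sn (n : ℕ) : Set (E n) := Metric.sphere 0 1

/-- The `d`-skeleton of the simplex with the vertices `0, ..., m - 1` (barycentric coordinates). -/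
def skel (m d : ℕ) : Set (Fin m → ℝ) :=
  {y | (∀ v, 0 ≤ y v) ∧ ∑ v, y v = 1 ∧ #(univ.filter fun v => y v ≠ 0) ≤ d + 1}

/-- The Urysohn width `UW_d` of the subset `S` of `ℝ^(n+1)` with respect to the distance function `ρ`: the infimum over the
continuous maps `π` from `S` to finite simplicial complexes of dimension at most `d` of the largest diameter of a fibre. -/
noncomputable def UW {n : ℕ} (ρ : E n → E n → ℝ) (d : ℕ) (S : Set (E n)) : ℝ≥0∞ :=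
  ⨅ (m : ℕ) (π : E n → (Fin m → ℝ)) (_ : ContinuousOn π S) (_ : ∀ x ∈ S, π x ∈ skel m d),
    ⨆ (x ∈ S) (y ∈ S) (_ : π x = π y), ENNReal.ofReal (ρ x y)

/-- `ρ` is a metric on the sphere `S^n` which induces the usual topology. -/
structure SMet (n : ℕ) (ρ : E n → E n → ℝ) : Prop where
  self : ∀ x ∈ Sn n, ρ x x = 0
  pos : ∀ x ∈ Sn n, ∀ y ∈ Sn n, x ≠ y → 0 < ρ x y
  symm : ∀ x ∈ Sn n, ∀ y ∈ Sn n, ρ x y = ρ y x
  tri : ∀ x ∈ Sn n, ∀ y ∈ Sn n, ∀ z ∈ Sn n, ρ x z ≤ ρ x y + ρ y z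
  cont : ∀ x ∈ Sn n, ∀ r : ℝ, 0 < r → ∃ δ : ℝ, 0 < δ ∧ ∀ y ∈ Sn n, dist x y < δ → ρ x y < r

/-- The orthogonal transformation `g` fixes all coordinates except the first `k`: `g` is an element of `O(k)`. -/
def Acts (n k : ℕ) (g : E n ≃ₗᵢ[ℝ] E n) : Prop := ∀ x : E n, ∀ i : Fin (n + 1), k ≤ i.val → g x i = x i

/-- `ρ` is invariant under `O(k)`. -/
def Inv (n k : ℕ) (ρ : E n → E n → ℝ) : Prop :=
  ∀ g : E n ≃ₗᵢ[ℝ] E n, Acts n k g → ∀ x ∈ Sn n, ∀ y ∈ Sn n, ρ (g x) (g y) = ρ x y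

/-- The closed unit ball around `x`. -/
def bal (n : ℕ) (ρ : E n → E n → ℝ) (x : E n) : Set (E n) := {y | y ∈ Sn n ∧ ρ x y ≤ 1}

/-- The unit sphere `S^(k-1)` of the first `k` coordinates. -/
def MU (n k : ℕ) : Set (E n) := {p | ‖p‖ = 1 ∧ ∀ i : Fin (n + 1), k ≤ i.val → p i = 0}

/-- The cube `[-1,1]^k`. -/
def cube (k : ℕ) : Set (Fin k → ℝ) := {u | ∀ i, |u i| ≤ 1}

/-- A path `τ ↦ a τ + r τ • S^(k-1)` of orbits of `O(k)`, starting at a fixed point. -/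
structure Tube (n k : ℕ) (a : ℝ → E n) (r : ℝ → ℝ) : Prop where
  ca : Continuous a
  cr : Continuous r
  ax : ∀ τ, ∀ i : Fin (n + 1), i.val < k → a τ i = 0
  nm : ∀ τ, ‖a τ‖ ^ 2 + (r τ) ^ 2 = 1
  zero : r 0 = 0

theorem mem_Sn {n : ℕ} {x : E n} : x ∈ Sn n ↔ ‖x‖ = 1 := by
  unfold Sn
  rw [mem_sphere_zero_iff_norm]

end Pool.Agent.Lib.MP_cd4c70_gt
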