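import Pool.Agent.Lib.MP_cd4c70_gt.Pm
import Pool.Agent.Lib.MP_cd4c70_gt.Av

/-!
# MP_cd4c70_gt, Leb: the covering lemma of Lebesgue for maps of the cube to a `(k-1)`-dimensional complex
-/

namespace Pool.Agent.Lib.MP_cd4c70_gt

open Set Finset

private theorem leb_cube_compact (k : ℕ) : IsCompact (cube k) := by
  have h : cube k = Set.Icc (fun _ => (-1 : ℝ)) (fun _ => (1 : ℝ)) := by
    ext u
    simp only [cube, Set.mem_ofPred_eq, Set.mem_Icc, Pi.le_def, abs_le]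
    exact ⟨fun h => ⟨fun i => (h i).1, fun i => (h i).2⟩, fun h i => ⟨h.1 i, h.2 i⟩⟩
  rw [h]
  exact isCompact_Icc

open scoped Manifold in
private theorem leb_fun {m : ℕ} {A B : Set (Fin m → ℝ)} (hA : IsClosed A) (hB : IsClosed B) (hd : Disjoint B A) :
    ∃ f : (Fin m → ℝ) → ℝ, ContDiff ℝ 1 f ∧ (∀ y ∈ B, f y = 0) ∧ ∀ y ∈ A, f y = 1 := by
  obtain ⟨f, hf0, hf1, -⟩ := exists_contMDiffMap_zero_one_of_isClosed (n := 1) 𝓘(ℝ, Fin m → ℝ) hB hA hd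
  exact ⟨f, contMDiff_iff_contDiff.1 f.contMDiff, fun y hy => hf0 hy, fun y hy => hf1 hy⟩

theorem leb {k m : ℕ} (hk : 1 ≤ k) (F : (Fin k → ℝ) → (Fin m → ℝ)) (hF : ContinuousOn F (cube k))
    (hs : ∀ u ∈ cube k, F u ∈ skel m (k - 1)) :
    ∃ j, ∃ u ∈ cube k, ∃ v ∈ cube k, u j = 1 ∧ v j = -1 ∧ F u = F v := by
  by_contra hcon
  have hcon' : ∀ j, ∀ u ∈ cube k, ∀ v ∈ cube k, u j = 1 → v j = -1 → F u ≠ F v :=
    fun j u hu v hv h1 h2 h3 => hcon ⟨j, u, hu, v, hv, h1, h2, h3⟩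
  have hcl : ∀ (j : Fin k) (t : ℝ), IsClosed (F '' (cube k ∩ {u | u j = t})) := fun j t =>
    (((leb_cube_compact k).inter_right (isClosed_eq (continuous_apply j) continuous_const)).image_of_continuousOn
      (hF.mono Set.inter_subset_left)).isClosed
  have hex : ∀ j : Fin k, ∃ f : (Fin m → ℝ) → ℝ, ContDiff ℝ 1 f ∧ (∀ y ∈ F '' (cube k ∩ {u | u j = -1}), f y = 0) ∧
      ∀ y ∈ F '' (cube k ∩ {u | u j = 1}), f y = 1 := by
    intro j
    refine leb_fun (hcl j 1) (hcl j (-1)) ?_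
    rw [Set.disjoint_left]
    rintro _ ⟨v, ⟨hv, hv1⟩, rfl⟩ ⟨u, ⟨hu, hu1⟩, h⟩
    exact hcon' j u hu v hv hu1 hv1 h
  choose f hf hf0 hf1 using hex
  have hP : ContDiff ℝ 1 (fun (y : Fin m → ℝ) (j : Fin k) => 2 * f j y - 1) :=
    contDiff_pi.2 fun j => (contDiff_const.mul (hf j)).sub contDiff_const
  obtain ⟨c, hc, hc2⟩ := avoid hk _ hP (δ := 1 / 2) (by norm_num)
  obtain ⟨u, hu, hu2⟩ := pm hk (fun u j => (2 * f j (F u) - 1) - c j)
    ((hP.continuous.comp_continuousOn hF).sub continuousOn_const)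
    (fun u hu j hj => by
      have h1 := hf1 j (F u) ⟨u, ⟨hu, hj⟩, rfl⟩
      have h2 := abs_lt.1 (hc j)
      change 0 < 2 * f j (F u) - 1 - c j
      rw [h1]
      linarith)
    (fun u hu j hj => by
      have h1 := hf0 j (F u) ⟨u, ⟨hu, hj⟩, rfl⟩
      have h2 := abs_lt.1 (hc j)
      change 2 * f j (F u) - 1 - c j < 0
      rw [h1]
      linarith)
  refine hc2 (F u) (hs u hu) ?_
  funext j
  have h3 := congrFun hu2 j
  exact sub_eq_zero.1 h3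

end Pool.Agent.Lib.MP_cd4c70_gt
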