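import Pool.Agent.Lib.MP_cd4c70_gt.Chain

/-!
# MP_cd4c70_gt, Orb: the orbits of a tube
-/

namespace Pool.Agent.Lib.MP_cd4c70_gt

open Set Finset
open scoped RealInnerProductSpace

/-- The point `a τ + r τ p`. -/
noncomputable def pt {n : ℕ} (a : ℝ → E n) (r : ℝ → ℝ) (τ : ℝ) (p : E n) : E n := a τ + r τ • p

theorem pt_mem {n k : ℕ} {a : ℝ → E n} {r : ℝ → ℝ} (hT : Tube n k a r) (τ : ℝ) {p : E n} (hp : p ∈ MU n k) : pt a r τ p ∈ Sn n := by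
  have h0 : ⟪a τ, r τ • p⟫ = 0 := by
    rw [inner_smul_right]
    have h1 : ⟪a τ, p⟫ = 0 := by
      rw [PiLp.inner_apply]
      refine Finset.sum_eq_zero fun i _ => ?_
      rcases lt_or_ge i.val k with hi | hi
      · rw [hT.ax τ i hi, inner_zero_left]
      · rw [hp.2 i hi, inner_zero_right]
    rw [h1, mul_zero]
  rw [mem_Sn]
  unfold pt
  have h2 : ‖a τ + r τ • p‖ * ‖a τ + r τ • p‖ = ‖a τ‖ * ‖a τ‖ + ‖r τ • p‖ * ‖r τ • p‖ :=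
    norm_add_sq_eq_norm_sq_add_norm_sq_real h0
  have h3 : ‖r τ • p‖ * ‖r τ • p‖ = (r τ) ^ 2 := by
    rw [norm_smul, hp.1, mul_one, Real.norm_eq_abs, abs_mul_abs_self, sq]
  have h4 := hT.nm τ
  have h5 : ‖a τ + r τ • p‖ ^ 2 = 1 := by
    rw [sq, h2, h3, ← sq, h4]
  exact (pow_eq_one_iff_of_nonneg (norm_nonneg _) two_ne_zero).1 h5

theorem act_pt {n k : ℕ} {a : ℝ → E n} {r : ℝ → ℝ} (hT : Tube n k a r) {g : E n ≃ₗᵢ[ℝ] E n} (hg : Acts n k g) (τ : ℝ) (p : E n) :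
    g (pt a r τ p) = pt a r τ (g p) := by
  unfold pt
  rw [map_add, map_smul, act_ax hg (hT.ax τ)]

theorem pt_cont {n k : ℕ} {a : ℝ → E n} {r : ℝ → ℝ} (hT : Tube n k a r) : Continuous fun x : ℝ × E n => pt a r x.1 x.2 := by
  unfold pt
  exact (hT.ca.comp continuous_fst).add ((hT.cr.comp continuous_fst).smul continuous_snd)

theorem sep (e0 : ℝ) (h0 : 0 ≤ e0) (h1 : e0 < 1) : ∃ N : ℝ, 1 ≤ N ∧ N * (1 - e0 ^ 4) ≤ 8 ∧ ∀ (n k : ℕ), 3 ≤ k → k ≤ n + 1 →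
    ∀ ρ : E n → E n → ℝ, SMet n ρ → Inv n k ρ → ∀ (a : ℝ → E n) (r : ℝ → ℝ), Tube n k a r →
    ∀ τ τ' : ℝ, ∀ p ∈ MU n k, ∀ p' ∈ MU n k, 0 ≤ ⟪p, p'⟫ → ⟪p, p'⟫ ≤ e0 → ∀ x ∈ MU n k, ∀ y ∈ MU n k,
    ρ (pt a r τ x) (pt a r τ y) ≤ N * ρ (pt a r τ p) (pt a r τ' p') := by
  obtain ⟨N, hN, hN4, hch⟩ := chain (e0 ^ 2) (by positivity) (by nlinarith)
  refine ⟨2 * N, by linarith, ?_, ?_⟩
  · have h2 : (e0 ^ 2) ^ 2 = e0 ^ 4 := by ring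
    rw [h2] at hN4
    linarith
  intro n k hk hkn ρ hρ hI a r hT τ τ' p hp p' hp' hc0 hc1 x hx y hy
  obtain ⟨q, hq, hq1, hq2⟩ := exists_turn hk hkn hp hp'
  obtain ⟨g, hg, hgp, hgp'⟩ := exists_act hp hp' hq hp' hq1.symm
  have hnn : ∀ u ∈ Sn n, ∀ v ∈ Sn n, 0 ≤ ρ u v := by
    intro u hu v hv
    rcases eq_or_ne u v with h | h
    · rw [h, hρ.self v hv]
    · exact (hρ.pos u hu v hv h).le
  have hP : ∀ t : ℝ, ∀ z ∈ MU n k, pt a r t z ∈ Sn n := fun t z hz => pt_mem hT t hz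
  have h2 : ρ (pt a r τ q) (pt a r τ' p') = ρ (pt a r τ p) (pt a r τ' p') := by
    rw [← hI g hg _ (hP τ p hp) _ (hP τ' p' hp'), act_pt hT hg, act_pt hT hg, hgp, hgp']
  have h3 : ρ (pt a r τ p) (pt a r τ q) ≤ 2 * ρ (pt a r τ p) (pt a r τ' p') := by
    have h4 := hρ.tri _ (hP τ p hp) _ (hP τ' p' hp') _ (hP τ q hq)
    rw [hρ.symm _ (hP τ' p' hp') _ (hP τ q hq), h2] at h4
    linarith
  have hq0 : 0 ≤ ⟪p, q⟫ := by rw [hq2]; positivity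
  have hqe : ⟪p, q⟫ ≤ e0 ^ 2 := by
    rw [hq2]
    exact pow_le_pow_left₀ hc0 hc1 2
  have h5 := hch n k hk hkn (fun u v => ρ (pt a r τ u) (pt a r τ v))
    (fun u hu v hv => hnn _ (hP τ u hu) _ (hP τ v hv))
    (fun u hu v hv w hw => hρ.tri _ (hP τ u hu) _ (hP τ v hv) _ (hP τ w hw))
    (fun f hf u hu v hv => by
      show ρ (pt a r τ (f u)) (pt a r τ (f v)) = ρ (pt a r τ u) (pt a r τ v)
      rw [← act_pt hT hf, ← act_pt hT hf, hI f hf _ (hP τ u hu) _ (hP τ v hv)])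
    p hp q hq hq0 hqe x hx y hy
  have h6 : N * ρ (pt a r τ p) (pt a r τ q) ≤ N * (2 * ρ (pt a r τ p) (pt a r τ' p')) :=
    mul_le_mul_of_nonneg_left h3 (by linarith)
  have h7 : ρ (pt a r τ x) (pt a r τ y) ≤ N * ρ (pt a r τ p) (pt a r τ q) := h5
  linarith

/-- A metric which induces the topology is continuous. -/
theorem smet_cont {n : ℕ} {ρ : E n → E n → ℝ} (hρ : SMet n ρ) {X : Type} [TopologicalSpace X] {f g : X → E n} {s : Set X}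
    (hf : ContinuousOn f s) (hg : ContinuousOn g s) (hfs : ∀ x ∈ s, f x ∈ Sn n) (hgs : ∀ x ∈ s, g x ∈ Sn n) :
    ContinuousOn (fun x => ρ (f x) (g x)) s := by
  intro x0 hx0
  refine Metric.tendsto_nhds.2 fun ε hε => ?_
  obtain ⟨δ1, hδ1, h1⟩ := hρ.cont (f x0) (hfs x0 hx0) (ε / 2) (by linarith)
  obtain ⟨δ2, hδ2, h2⟩ := hρ.cont (g x0) (hgs x0 hx0) (ε / 2) (by linarith)
  have e1 := Metric.tendsto_nhds.1 (hf x0 hx0) δ1 hδ1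
  have e2 := Metric.tendsto_nhds.1 (hg x0 hx0) δ2 hδ2
  filter_upwards [e1, e2, self_mem_nhdsWithin] with x hx1 hx2 hxs
  have a1 : ρ (f x0) (f x) < ε / 2 := h1 (f x) (hfs x hxs) (by rw [dist_comm]; exact hx1)
  have a2 : ρ (g x0) (g x) < ε / 2 := h2 (g x) (hgs x hxs) (by rw [dist_comm]; exact hx2)
  have b1 := hρ.tri _ (hfs x hxs) _ (hfs x0 hx0) _ (hgs x hxs)
  have b2 := hρ.tri _ (hfs x0 hx0) _ (hgs x0 hx0) _ (hgs x hxs)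
  have b3 := hρ.tri _ (hfs x0 hx0) _ (hfs x hxs) _ (hgs x0 hx0)
  have b4 := hρ.tri _ (hfs x hxs) _ (hgs x hxs) _ (hgs x0 hx0)
  rw [hρ.symm _ (hfs x hxs) _ (hfs x0 hx0)] at b1
  rw [hρ.symm _ (hgs x hxs) _ (hgs x0 hx0)] at b4
  rw [Real.dist_eq, abs_lt]
  constructor <;> linarith

end Pool.Agent.Lib.MP_cd4c70_gt
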