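import Pool.Agent.Lib.MP_cd4c70_gt.Defs
import Pool.Agent.Lib.MP_d9740f_co.BU

/-!
# MP_cd4c70_gt, Pm: the Poincaré-Miranda theorem, from the Borsuk-Ulam theorem
-/

namespace Pool.Agent.Lib.MP_cd4c70_gt

open Set Finset

/-- the retraction onto the cube -/
private noncomputable def pmcl {k : ℕ} (w : Fin k → ℝ) : Fin k → ℝ := fun i => max (-1) (min 1 (w i))

private theorem pmcl_mem {k : ℕ} (w : Fin k → ℝ) : pmcl w ∈ cube k := by
  intro i
  simp only [pmcl]
  rw [abs_le]
  exact ⟨le_max_left _ _, max_le (by norm_num) (min_le_left _ _)⟩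

private theorem pmcl_cont {k : ℕ} : Continuous (pmcl : (Fin k → ℝ) → (Fin k → ℝ)) := by
  unfold pmcl
  fun_prop

private theorem pmcube_compact (k : ℕ) : IsCompact (cube k) := by
  have h : cube k = Set.Icc (fun _ => (-1 : ℝ)) (fun _ => (1 : ℝ)) := by
    ext u
    constructor
    · intro h
      exact ⟨fun i => (abs_le.mp (h i)).1, fun i => (abs_le.mp (h i)).2⟩
    · intro h i
      exact abs_le.mpr ⟨h.1 i, h.2 i⟩
  rw [h]
  exact isCompact_Icc

/-- the odd map -/
private noncomputable def pmPhi {k : ℕ} (K : (Fin k → ℝ) → (Fin k → ℝ)) (x : Fin (k + 1) → ℝ) : Fin k → ℝ :=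
  (fun i => x i.succ) + x 0 • K ((x 0)⁻¹ • fun i => x i.succ)

private theorem pmPhi_odd {k : ℕ} (K : (Fin k → ℝ) → (Fin k → ℝ)) (x : Fin (k + 1) → ℝ) :
    pmPhi K (-x) = -pmPhi K x := by
  have h : ((-x) 0)⁻¹ • (fun i : Fin k => (-x) i.succ) = (x 0)⁻¹ • fun i : Fin k => x i.succ := by
    funext i
    simp only [Pi.neg_apply, Pi.smul_apply, smul_eq_mul, inv_neg]
    ring
  unfold pmPhi
  rw [h]
  funext i
  simp only [Pi.neg_apply, Pi.add_apply, Pi.smul_apply, smul_eq_mul]
  ring

private theorem pmPhi_cont {k : ℕ} (K : (Fin k → ℝ) → (Fin k → ℝ)) (hK : Continuous K) (C : ℝ)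
    (hC : ∀ w, ‖K w‖ ≤ C) : Continuous (pmPhi K) := by
  have hu : Continuous fun x : Fin (k + 1) → ℝ => fun i : Fin k => x i.succ := by fun_prop
  have h0 : Continuous fun x : Fin (k + 1) → ℝ => x 0 := by fun_prop
  unfold pmPhi
  refine hu.add ?_
  rw [continuous_iff_continuousAt]
  intro x
  by_cases hx : x 0 = 0
  · -- squeeze
    have e : (fun x : Fin (k + 1) → ℝ => x 0 • K ((x 0)⁻¹ • fun i => x i.succ)) x = 0 := by
      simp only [hx, zero_smul]
    unfold ContinuousAt
    rw [e]
    apply squeeze_zero_norm (a := fun y : Fin (k + 1) → ℝ => |y 0| * C)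
    · intro y
      rw [norm_smul, Real.norm_eq_abs]
      exact mul_le_mul_of_nonneg_left (hC _) (abs_nonneg _)
    · have h1 : Continuous fun y : Fin (k + 1) → ℝ => |y 0| * C := by fun_prop
      have h2 := h1.tendsto x
      simpa [hx] using h2
  · refine ContinuousAt.smul h0.continuousAt (hK.continuousAt.comp ?_)
    exact (h0.continuousAt.inv₀ hx).smul hu.continuousAt

theorem pm {k : ℕ} (hk : 1 ≤ k) (G : (Fin k → ℝ) → (Fin k → ℝ)) (hG : ContinuousOn G (cube k))
    (h1 : ∀ u ∈ cube k, ∀ j, u j = 1 → 0 < G u j) (h2 : ∀ u ∈ cube k, ∀ j, u j = -1 → G u j < 0) :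
    ∃ u ∈ cube k, G u = 0 := by
  have : Nonempty (Fin k) := ⟨⟨0, hk⟩⟩
  set K : (Fin k → ℝ) → (Fin k → ℝ) := fun w => G (pmcl w) - pmcl w with hKdef
  have hKc : Continuous K := by
    refine Continuous.sub ?_ pmcl_cont
    exact hG.comp_continuous pmcl_cont pmcl_mem
  obtain ⟨C, hC⟩ : ∃ C, ∀ w, ‖K w‖ ≤ C := by
    have hcont : ContinuousOn (fun u => G u - u) (cube k) := hG.sub continuousOn_id
    obtain ⟨C, hC⟩ := (pmcube_compact k).exists_bound_of_continuousOn hcont
    exact ⟨C, fun w => hC _ (pmcl_mem w)⟩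
  obtain ⟨x, hx, hz⟩ := Pool.Agent.Lib.MP_d9740f_co.borsuk_ulam_fintype (p := k) (ι := Fin k) (by simp) (pmPhi K)
    (pmPhi_cont K hKc C hC) (pmPhi_odd K)
  have hx0 : x 0 ≠ 0 := by
    intro h
    have hu : ∀ i : Fin k, x i.succ = 0 := by
      intro i
      have := congrFun hz i
      simpa [pmPhi, h] using this
    have : ∑ i, |x i| = 0 := by
      apply Finset.sum_eq_zero
      intro i _
      refine Fin.cases ?_ (fun j => ?_) i
      · simp [h]
      · simp [hu j]
    rw [this] at hx
    exact zero_ne_one hx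
  set w : Fin k → ℝ := (x 0)⁻¹ • fun i => x i.succ with hw
  have key : ∀ j, w j + (G (pmcl w) j - pmcl w j) = 0 := by
    intro j
    have h3 := congrFun hz j
    have h4 : x j.succ = x 0 * w j := by
      simp only [hw, Pi.smul_apply, smul_eq_mul]
      field_simp
    have h5 : x 0 * (w j + (G (pmcl w) j - pmcl w j)) = 0 := by
      have h6 : pmPhi K x j = x j.succ + x 0 * (G (pmcl w) j - pmcl w j) := rfl
      rw [h6, h4] at h3
      rw [mul_add]
      exact h3
    exact (mul_eq_zero.mp h5).resolve_left hx0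
  have hwc : ∀ j, pmcl w j = w j := by
    intro j
    have hk := key j
    by_contra hne
    have hcases : 1 < w j ∨ w j < -1 := by
      by_contra hcon
      push Not at hcon
      apply hne
      simp only [pmcl]
      rw [min_eq_right hcon.1, max_eq_right hcon.2]
    rcases hcases with hj | hj
    · have h3 : pmcl w j = 1 := by
        simp only [pmcl]
        rw [min_eq_left hj.le, max_eq_right (by norm_num)]
      have h4 := h1 _ (pmcl_mem w) j h3
      rw [h3] at hk
      linarith
    · have h3 : pmcl w j = -1 := by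
        simp only [pmcl]
        rw [min_eq_right (by linarith), max_eq_left hj.le]
      have h4 := h2 _ (pmcl_mem w) j h3
      rw [h3] at hk
      linarith
  refine ⟨pmcl w, pmcl_mem w, ?_⟩
  funext j
  have hk := key j
  rw [hwc j] at hk
  simp only [Pi.zero_apply]
  linarith

end Pool.Agent.Lib.MP_cd4c70_gt
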