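import Pool.Agent.Lib.MP_cd4c70_gt.Defs

/-!
# MP_cd4c70_gt, Qc: a cube chart of `S^(k-1)`

The coordinate `j = 0` of the cube is not used; the vector is `(1, u_1/k, ..., u_(k-1)/k, 0, ..., 0)`, normalised.
-/

namespace Pool.Agent.Lib.MP_cd4c70_gt

open Set Finset
open scoped RealInnerProductSpace

/-- The vector `(1, u_1/k, ..., u_(k-1)/k, 0, ..., 0)`. -/
noncomputable def Vc (n k : ℕ) (u : Fin k → ℝ) : E n :=
  WithLp.toLp 2 fun i : Fin (n + 1) => if h : i.val < k then (if i.val = 0 then 1 else u ⟨i.val, h⟩ / k) else 0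

/-- The cube chart. -/
noncomputable def Qc (n k : ℕ) (u : Fin k → ℝ) : E n := ‖Vc n k u‖⁻¹ • Vc n k u

private theorem Qc_app {n k : ℕ} (u : Fin k → ℝ) (i : Fin (n + 1)) :
    Vc n k u i = if h : i.val < k then (if i.val = 0 then 1 else u ⟨i.val, h⟩ / k) else 0 := rfl

private theorem Qc_ne {n k : ℕ} (hk : 1 ≤ k) (u : Fin k → ℝ) : Vc n k u ≠ 0 := by
  intro h
  have h1 : Vc n k u 0 = 1 := by
    rw [Qc_app, dif_pos (show (0 : Fin (n + 1)).val < k from by rw [Fin.val_zero]; omega)]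
    exact if_pos rfl
  rw [h] at h1
  simp at h1

private theorem Qc_vcont (n k : ℕ) : Continuous (Vc n k) := by
  refine (PiLp.continuous_toLp 2 _).comp (continuous_pi fun i => ?_)
  by_cases h : i.val < k
  · simp only [dif_pos h]
    by_cases h0 : i.val = 0
    · simp only [if_pos h0]
      exact continuous_const
    · simp only [if_neg h0]
      exact (continuous_apply _).div_const _
  · simp only [dif_neg h]
    exact continuous_const

theorem Qc_cont {n k : ℕ} (hk : 1 ≤ k) : Continuous (Qc n k) :=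
  ((Qc_vcont n k).norm.inv₀ fun u => norm_ne_zero_iff.2 (Qc_ne hk u)).smul (Qc_vcont n k)

theorem Qc_mem {n k : ℕ} (hk : 1 ≤ k) (u : Fin k → ℝ) : Qc n k u ∈ MU n k := by
  refine ⟨?_, fun i hi => ?_⟩
  · unfold Qc
    rw [norm_smul, norm_inv, norm_norm, inv_mul_cancel₀ (norm_ne_zero_iff.2 (Qc_ne hk u))]
  · show ‖Vc n k u‖⁻¹ * Vc n k u i = 0
    rw [Qc_app, dif_neg (not_lt.2 hi), mul_zero]

private theorem Qc_sum {n k : ℕ} (hk : 1 ≤ k) :
    ∑ i : Fin (n + 1), (if i.val < k then 1 / (k : ℝ) ^ 2 else 0) ≤ 1 / (k : ℝ) := by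
  rw [← Finset.sum_filter, Finset.sum_const, nsmul_eq_mul]
  have h1 : #(univ.filter fun i : Fin (n + 1) => i.val < k) ≤ k := by
    have h2 := Finset.card_le_card_of_injOn (s := univ.filter fun i : Fin (n + 1) => i.val < k) (t := range k)
      (fun i => i.val) (fun i hi => by
        have := (Finset.mem_filter.1 hi).2
        exact Finset.mem_coe.2 (Finset.mem_range.2 this)) (fun i _ j _ h => Fin.ext h)
    rwa [Finset.card_range] at h2
  have hk0 : (0 : ℝ) < k := by exact_mod_cast hk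
  have h3 : ((#(univ.filter fun i : Fin (n + 1) => i.val < k) : ℕ) : ℝ) ≤ k := by exact_mod_cast h1
  calc ((#(univ.filter fun i : Fin (n + 1) => i.val < k) : ℕ) : ℝ) * (1 / (k : ℝ) ^ 2) ≤ k * (1 / (k : ℝ) ^ 2) :=
        mul_le_mul_of_nonneg_right h3 (by positivity)
    _ = 1 / (k : ℝ) := by field_simp

private theorem Qc_one {n : ℕ} : ∑ i : Fin (n + 1), (if i.val = 0 then (1 : ℝ) else 0) = 1 := by
  rw [Fin.sum_univ_succ]
  simp

private theorem Qc_low {n k : ℕ} (hk : 1 ≤ k) {u v : Fin k → ℝ} (hu : u ∈ cube k) (hv : v ∈ cube k) :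
    0 ≤ ⟪Vc n k u, Vc n k v⟫ := by
  have hk0 : (1 : ℝ) ≤ k := by exact_mod_cast hk
  have h1 : ∑ i : Fin (n + 1), ((if i.val = 0 then (1 : ℝ) else 0) - (if i.val < k then 1 / (k : ℝ) ^ 2 else 0)) ≤
      ⟪Vc n k u, Vc n k v⟫ := by
    rw [PiLp.inner_apply]
    refine Finset.sum_le_sum fun i _ => ?_
    have h2 : ⟪Vc n k u i, Vc n k v i⟫ = Vc n k v i * Vc n k u i := rfl
    rw [h2, Qc_app, Qc_app]
    by_cases h : i.val < k
    · simp only [dif_pos h, if_pos h]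
      by_cases h0 : i.val = 0
      · simp only [if_pos h0]
        have : 0 ≤ 1 / (k : ℝ) ^ 2 := by positivity
        linarith
      · simp only [if_neg h0]
        have a1 := abs_le.1 (hu ⟨i.val, h⟩)
        have a2 := abs_le.1 (hv ⟨i.val, h⟩)
        have h3 : -1 ≤ v ⟨i.val, h⟩ * u ⟨i.val, h⟩ := by nlinarith [a1.1, a1.2, a2.1, a2.2]
        have h4 : v ⟨i.val, h⟩ / k * (u ⟨i.val, h⟩ / k) = v ⟨i.val, h⟩ * u ⟨i.val, h⟩ * (1 / (k : ℝ) ^ 2) := by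
          field_simp
        rw [h4]
        have : 0 ≤ 1 / (k : ℝ) ^ 2 := by positivity
        nlinarith
    · have h0 : i.val ≠ 0 := by omega
      simp [h, h0]
  rw [Finset.sum_sub_distrib, Qc_one] at h1
  have h2 := Qc_sum (n := n) hk
  have h3 : 1 / (k : ℝ) ≤ 1 := by
    rw [div_le_one (by linarith)]
    exact hk0
  linarith

private theorem Qc_up {n k : ℕ} (hk : 1 ≤ k) {u : Fin k → ℝ} (hu : u ∈ cube k) : ‖Vc n k u‖ ^ 2 ≤ 2 := by
  have hk0 : (1 : ℝ) ≤ k := by exact_mod_cast hk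
  have h1 : ‖Vc n k u‖ ^ 2 ≤
      ∑ i : Fin (n + 1), ((if i.val = 0 then (1 : ℝ) else 0) + (if i.val < k then 1 / (k : ℝ) ^ 2 else 0)) := by
    rw [EuclideanSpace.norm_sq_eq]
    refine Finset.sum_le_sum fun i _ => ?_
    rw [Real.norm_eq_abs, sq_abs, Qc_app]
    by_cases h : i.val < k
    · simp only [dif_pos h, if_pos h]
      by_cases h0 : i.val = 0
      · simp only [if_pos h0]
        have : 0 ≤ 1 / (k : ℝ) ^ 2 := by positivity
        linarith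
      · simp only [if_neg h0]
        have a1 := abs_le.1 (hu ⟨i.val, h⟩)
        have h3 : u ⟨i.val, h⟩ ^ 2 ≤ 1 := by nlinarith [a1.1, a1.2]
        rw [div_pow, zero_add]
        exact div_le_div_of_nonneg_right h3 (by positivity)
    · have h0 : i.val ≠ 0 := by omega
      simp [h, h0]
  rw [Finset.sum_add_distrib, Qc_one] at h1
  have h2 := Qc_sum (n := n) hk
  have h3 : 1 / (k : ℝ) ≤ 1 := by
    rw [div_le_one (by linarith)]
    exact hk0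
  linarith

private theorem Qc_inv {x : ℝ} (h0 : 0 < x) (h : x ^ 2 ≤ 2) : 1 / 2 ≤ (x⁻¹) ^ 2 := by
  rw [inv_pow, one_div]
  exact inv_anti₀ (by positivity) h

theorem Qc_inner {n k : ℕ} (hk : 3 ≤ k) (hkn : k ≤ n + 1) {u v : Fin k → ℝ} (hu : u ∈ cube k) (hv : v ∈ cube k) {j : Fin k} (hj : j.val ≠ 0)
    (h1 : u j = 1) (h2 : v j = -1) : 0 ≤ ⟪Qc n k u, Qc n k v⟫ ∧ ⟪Qc n k u, Qc n k v⟫ ≤ 1 - 1 / (k : ℝ) ^ 2 := by
  have hk1 : 1 ≤ k := by omega
  have hk0 : (0 : ℝ) < k := by exact_mod_cast hk1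
  have pu : 0 < ‖Vc n k u‖ := norm_pos_iff.2 (Qc_ne hk1 u)
  have pv : 0 < ‖Vc n k v‖ := norm_pos_iff.2 (Qc_ne hk1 v)
  constructor
  · unfold Qc
    rw [real_inner_smul_left, real_inner_smul_right]
    exact mul_nonneg (inv_nonneg.2 pu.le) (mul_nonneg (inv_nonneg.2 pv.le) (Qc_low hk1 hu hv))
  · have nu := (Qc_mem (n := n) hk1 u).1
    have nv := (Qc_mem (n := n) hk1 v).1
    have e1 : ‖Qc n k u - Qc n k v‖ ^ 2 = 2 - 2 * ⟪Qc n k u, Qc n k v⟫ := by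
      rw [norm_sub_sq_real, nu, nv]
      ring
    have hjn : j.val < n + 1 := lt_of_lt_of_le j.isLt hkn
    have e2 : (Qc n k u ⟨j.val, hjn⟩ - Qc n k v ⟨j.val, hjn⟩) ^ 2 ≤ ‖Qc n k u - Qc n k v‖ ^ 2 := by
      rw [EuclideanSpace.norm_sq_eq]
      have := Finset.single_le_sum (f := fun i => ‖(Qc n k u - Qc n k v) i‖ ^ 2) (fun i _ => by positivity)
        (Finset.mem_univ (⟨j.val, hjn⟩ : Fin (n + 1)))
      refine le_trans (le_of_eq ?_) this
      show _ = ‖(Qc n k u - Qc n k v) ⟨j.val, hjn⟩‖ ^ 2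
      rw [Real.norm_eq_abs, sq_abs]
      rfl
    have e3 : Qc n k u ⟨j.val, hjn⟩ = ‖Vc n k u‖⁻¹ * (1 / k) := by
      show ‖Vc n k u‖⁻¹ * Vc n k u ⟨j.val, hjn⟩ = _
      rw [Qc_app, dif_pos j.isLt, if_neg hj]
      show ‖Vc n k u‖⁻¹ * (u j / k) = _
      rw [h1]
    have e4 : Qc n k v ⟨j.val, hjn⟩ = - (‖Vc n k v‖⁻¹ * (1 / k)) := by
      show ‖Vc n k v‖⁻¹ * Vc n k v ⟨j.val, hjn⟩ = _
      rw [Qc_app, dif_pos j.isLt, if_neg hj]
      show ‖Vc n k v‖⁻¹ * (v j / k) = _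
      rw [h2]
      ring
    have e5 := Qc_inv pu (Qc_up (n := n) hk1 hu)
    have e6 := Qc_inv pv (Qc_up (n := n) hk1 hv)
    have e7 : 1 / 2 ≤ ‖Vc n k u‖⁻¹ * ‖Vc n k v‖⁻¹ := by
      have a1 : (0 : ℝ) ≤ ‖Vc n k u‖⁻¹ * ‖Vc n k v‖⁻¹ := by positivity
      have a2 : (1 / 2 : ℝ) ^ 2 ≤ (‖Vc n k u‖⁻¹ * ‖Vc n k v‖⁻¹) ^ 2 := by
        rw [mul_pow]
        calc (1 / 2 : ℝ) ^ 2 = 1 / 2 * (1 / 2) := by ring
          _ ≤ (‖Vc n k u‖⁻¹) ^ 2 * (‖Vc n k v‖⁻¹) ^ 2 := mul_le_mul e5 e6 (by norm_num) (by positivity)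
      exact le_of_sq_le_sq a2 a1
    have e8 : 2 * (1 / (k : ℝ) ^ 2) ≤ (Qc n k u ⟨j.val, hjn⟩ - Qc n k v ⟨j.val, hjn⟩) ^ 2 := by
      rw [e3, e4]
      have a1 : (‖Vc n k u‖⁻¹ * (1 / k) - -(‖Vc n k v‖⁻¹ * (1 / k))) ^ 2 =
          ((‖Vc n k u‖⁻¹) ^ 2 + (‖Vc n k v‖⁻¹) ^ 2 + 2 * (‖Vc n k u‖⁻¹ * ‖Vc n k v‖⁻¹)) * (1 / (k : ℝ) ^ 2) := by
        ring
      rw [a1]
      exact mul_le_mul_of_nonneg_right (by linarith) (by positivity)
    linarith

end Pool.Agent.Lib.MP_cd4c70_gt
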