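import Pool.Agent.Lib.MP_cd4c70_gt.Leb
import Pool.Agent.Lib.MP_cd4c70_gt.Orb
import Pool.Agent.Lib.MP_cd4c70_gt.Cut
import Pool.Agent.Lib.MP_cd4c70_gt.Qc

/-!
# MP_cd4c70_gt, Prism: if the local widths are small, then the orbits in a tube are small
-/

namespace Pool.Agent.Lib.MP_cd4c70_gt

open Set Finset
open scoped RealInnerProductSpace

theorem prism {k : ℕ} (hk : 3 ≤ k) : ∀ n : ℕ, k ≤ n + 1 → ∀ ρ : E n → E n → ℝ, SMet n ρ → Inv n k ρ →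
    (∀ x ∈ Sn n, UW ρ (k - 1) (bal n ρ x) < ENNReal.ofReal (1 / (40 * (k : ℝ) ^ 2))) →
    ∀ (a : ℝ → E n) (r : ℝ → ℝ), Tube n k a r → ∀ p ∈ MU n k, ∀ q ∈ MU n k, ρ (pt a r 1 p) (pt a r 1 q) ≤ 1 / 2 := by
  have hk3 : (3 : ℝ) ≤ k := by exact_mod_cast hk
  have hk2 : (0 : ℝ) < (k : ℝ) ^ 2 := by positivity
  have hk9 : 1 / (k : ℝ) ^ 2 ≤ 1 := by
    rw [div_le_one hk2]
    nlinarith
  have hkp : 0 < 1 / (k : ℝ) ^ 2 := by positivity
  obtain ⟨N, hN, hN8, HN⟩ := sep (1 - 1 / (k : ℝ) ^ 2) (by linarith) (by linarith)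
  have hN0 : 0 < N := by linarith
  have hNk : 1 / (40 * (k : ℝ) ^ 2) ≤ 1 / (16 * N) := by
    obtain ⟨t, ht⟩ : ∃ t : ℝ, t = 1 / (k : ℝ) ^ 2 := ⟨_, rfl⟩
    rw [← ht] at hN8 hkp
    have ht9 : t ≤ 1 / 9 := by
      rw [ht]
      apply one_div_le_one_div_of_le (by norm_num)
      nlinarith
    have h1 : 10 / 3 * t ≤ 1 - (1 - t) ^ 4 := by
      have h2 : 1 - (1 - t) ^ 4 - 10 / 3 * t = t * (2 / 3 - 6 * t) + t ^ 3 * (4 - t) := by ring
      have h3 : 0 ≤ t * (2 / 3 - 6 * t) := mul_nonneg hkp.le (by linarith)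
      have h4 : 0 ≤ t ^ 3 * (4 - t) := mul_nonneg (by positivity) (by linarith)
      linarith
    have h5 : N * (10 / 3 * t) ≤ 8 := (mul_le_mul_of_nonneg_left h1 hN0.le).trans hN8
    have h6 : 1 / (40 * (k : ℝ) ^ 2) = t / 40 := by
      rw [ht]
      field_simp
    rw [h6, le_div_iff₀ (by positivity)]
    linarith
  intro n hkn ρ hρ hi hw' a r hT
  have hw : ∀ x ∈ Sn n, UW ρ (k - 1) (bal n ρ x) < ENNReal.ofReal (1 / (16 * N)) := fun x hx =>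
    (hw' x hx).trans_le (ENNReal.ofReal_le_ofReal hNk)
  obtain ⟨p₀, hp₀, -, -⟩ := exists_perp hk hkn (0 : E n) 0
  obtain ⟨q₀, hq₀, hpq, -⟩ := exists_perp hk hkn p₀ 0
  have hmem : ∀ τ, ∀ p ∈ MU n k, pt a r τ p ∈ Sn n := fun τ p hp => pt_mem hT τ hp
  have hσt : ∀ τ, ∀ p ∈ MU n k, ∀ q ∈ MU n k, ∀ s ∈ MU n k,
      ρ (pt a r τ p) (pt a r τ s) ≤ ρ (pt a r τ p) (pt a r τ q) + ρ (pt a r τ q) (pt a r τ s) :=
    fun τ p hp q hq s hs => hρ.tri _ (hmem τ p hp) _ (hmem τ q hq) _ (hmem τ s hs)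
  have hinv : ∀ g : E n ≃ₗᵢ[ℝ] E n, Acts n k g → ∀ τ τ', ∀ p ∈ MU n k, ∀ q ∈ MU n k,
      ρ (pt a r τ (g p)) (pt a r τ' (g q)) = ρ (pt a r τ p) (pt a r τ' q) := fun g hg τ τ' p hp q hq => by
    rw [← act_pt hT hg, ← act_pt hT hg]
    exact hi g hg _ (hmem τ p hp) _ (hmem τ' q hq)
  obtain ⟨f, hf⟩ : ∃ f : ℝ → ℝ, f = fun τ => ρ (pt a r τ p₀) (pt a r τ q₀) := ⟨_, rfl⟩
  have hfe : ∀ τ, f τ = ρ (pt a r τ p₀) (pt a r τ q₀) := fun τ => by rw [hf]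
  have hdiam : ∀ τ, ∀ x ∈ MU n k, ∀ y ∈ MU n k, ρ (pt a r τ x) (pt a r τ y) ≤ 2 * f τ := fun τ x hx y hy => by
    rw [hfe]
    exact right_angle hk hkn (σ := fun x y => ρ (pt a r τ x) (pt a r τ y)) (hσt τ)
      (fun g hg p hp q hq => hinv g hg τ τ p hp q hq) hp₀ hq₀ hpq hx hy
  have hptc : ∀ p : E n, Continuous fun τ => pt a r τ p := fun p => by
    have h1 : Continuous fun τ : ℝ => (τ, p) := continuous_id.prodMk continuous_const
    exact (pt_cont hT).comp h1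
  have hfc : ContinuousOn f (Icc 0 1) := by
    rw [hf]
    exact smet_cont hρ (hptc p₀).continuousOn (hptc q₀).continuousOn (fun τ _ => hmem τ _ hp₀) (fun τ _ => hmem τ _ hq₀)
  have hf0 : f 0 = 0 := by
    have h1 : pt a r 0 q₀ = pt a r 0 p₀ := by
      unfold pt
      rw [hT.zero, zero_smul, zero_smul]
    rw [hfe, h1]
    exact hρ.self _ (hmem 0 _ hp₀)
  have hf1 : f 1 ≤ 1 / 4 := by
    by_contra hcon
    obtain ⟨s, t, hs0, hst, ht1, hfs, hft, hfi⟩ := times hfc hf0 (not_le.1 hcon)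
    have hD1 : ∀ q ∈ MU n k, 1 / 16 ≤ ρ (pt a r t p₀) (pt a r s q) := by
      intro q hq
      obtain ⟨g, hg, hg1, -⟩ := exists_act hp₀ hq₀ hq₀ hp₀ (real_inner_comm _ _)
      have e1 := hinv g hg t s p₀ hp₀ q hq
      rw [hg1] at e1
      have e2 := hρ.tri _ (hmem t _ hp₀) _ (hmem s _ hq) _ (hmem t _ hq₀)
      have e3 := hρ.tri _ (hmem s _ hq) _ (hmem s _ (act_MU hg hq)) _ (hmem t _ hq₀)
      have e4 := hdiam s q hq (g q) (act_MU hg hq)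
      have e5 := hρ.symm _ (hmem s _ (act_MU hg hq)) _ (hmem t _ hq₀)
      have e6 := hfe t
      rw [hfs] at e4
      rw [hft] at e6
      linarith
    obtain ⟨s', hss', hs't, hD2, hD3⟩ := cut (Q := MU n k) (fun τ q => ρ (pt a r t p₀) (pt a r τ q)) (w := 1 / 16) (v := 1 / 2) hst
      (by norm_num)
      (fun q => smet_cont hρ continuousOn_const (hptc q).continuousOn (fun _ _ => hmem t _ hp₀) (fun τ _ => hmem τ _ q.2))
      (fun q => hD1 q q.2) ⟨⟨p₀, hp₀⟩, by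
        show ρ (pt a r t p₀) (pt a r t p₀) < 1 / 16
        rw [hρ.self _ (hmem t _ hp₀)]
        norm_num⟩
      (fun τ hτ q q' => by
        have h1 := hρ.tri _ (hmem t _ hp₀) _ (hmem τ _ q.2) _ (hmem τ _ q'.2)
        have h2 := hdiam τ q q.2 q' q'.2
        have h3 := (hfi τ hτ).2
        show ρ (pt a r t p₀) (pt a r τ q') ≤ ρ (pt a r t p₀) (pt a r τ q) + 1 / 2
        linarith)
    have hsep1 : ∀ p ∈ MU n k, ∀ q ∈ MU n k, 1 / 16 ≤ ρ (pt a r t p) (pt a r s' q) := by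
      intro p hp q hq
      obtain ⟨g, hg, hg1, -⟩ := exists_act hp hp hp₀ hp₀ (by
        rw [real_inner_self_eq_norm_sq, real_inner_self_eq_norm_sq, hp.1, hp₀.1])
      have e1 := hinv g hg t s' p hp q hq
      rw [hg1] at e1
      rw [← e1]
      exact hD2 ⟨g q, act_MU hg hq⟩
    have hball : ∀ τ ∈ Icc s' t, ∀ q ∈ MU n k, pt a r τ q ∈ bal n ρ (pt a r t p₀) := fun τ hτ q hq => by
      refine ⟨hmem τ q hq, ?_⟩
      have h1 : ρ (pt a r t p₀) (pt a r τ q) ≤ 1 / 16 + 1 / 2 := hD3 τ hτ ⟨q, hq⟩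
      linarith
    have hsep2 : ∀ τ ∈ Icc s' t, ∀ τ', ∀ p ∈ MU n k, ∀ p' ∈ MU n k, 0 ≤ ⟪p, p'⟫ → ⟪p, p'⟫ ≤ 1 - 1 / (k : ℝ) ^ 2 →
        1 / (16 * N) ≤ ρ (pt a r τ p) (pt a r τ' p') := by
      intro τ hτ τ' p hp p' hp' h1 h2
      have h3 := HN n k hk hkn ρ hρ hi a r hT τ τ' p hp p' hp' h1 h2 p₀ hp₀ q₀ hq₀
      have h4 := (hfi τ ⟨hss'.trans hτ.1, hτ.2⟩).1
      rw [hfe] at h4
      rw [div_le_iff₀ (by positivity)]
      nlinarith
    have hlt := hw _ (hmem t p₀ hp₀)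
    unfold UW at hlt
    simp only [iInf_lt_iff] at hlt
    obtain ⟨m, π, hπc, hπs, hlt⟩ := hlt
    have hfib : ∀ x ∈ bal n ρ (pt a r t p₀), ∀ y ∈ bal n ρ (pt a r t p₀), π x = π y → ρ x y < 1 / (16 * N) := by
      intro x hx y hy hxy
      refine (ENNReal.ofReal_lt_ofReal_iff (by positivity)).1 (lt_of_le_of_lt ?_ hlt)
      exact le_iSup_of_le x (le_iSup_of_le hx (le_iSup_of_le y (le_iSup_of_le hy (le_iSup_of_le hxy le_rfl))))
    have hk1 : 1 ≤ k := by omega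
    obtain ⟨T, hTd⟩ : ∃ T : (Fin k → ℝ) → ℝ, T = fun u => s' + (t - s') * ((u ⟨0, by omega⟩ + 1) / 2) := ⟨_, rfl⟩
    have hTe : ∀ u, T u = s' + (t - s') * ((u ⟨0, by omega⟩ + 1) / 2) := fun u => by rw [hTd]
    have hTm : ∀ u ∈ cube k, T u ∈ Icc s' t := by
      intro u hu
      have h1 := abs_le.1 (hu ⟨0, by omega⟩)
      rw [hTe]
      have h2 : 0 < t - s' := by linarith
      constructor
      · have : 0 ≤ (t - s') * ((u ⟨0, by omega⟩ + 1) / 2) := mul_nonneg h2.le (by linarith [h1.1])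
        linarith
      · have : (t - s') * ((u ⟨0, by omega⟩ + 1) / 2) ≤ (t - s') * 1 := mul_le_mul_of_nonneg_left (by linarith [h1.2]) h2.le
        linarith
    have hTc : Continuous T := by
      rw [hTd]
      fun_prop
    obtain ⟨Φ, hΦ⟩ : ∃ Φ : (Fin k → ℝ) → E n, Φ = fun u => pt a r (T u) (Qc n k u) := ⟨_, rfl⟩
    have hΦe : ∀ u, Φ u = pt a r (T u) (Qc n k u) := fun u => by rw [hΦ]
    have hΦc : Continuous Φ := by
      rw [hΦ]
      exact (pt_cont hT).comp (hTc.prodMk (Qc_cont hk1))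
    have hΦb : ∀ u ∈ cube k, Φ u ∈ bal n ρ (pt a r t p₀) := fun u hu => by
      rw [hΦe]
      exact hball _ (hTm u hu) _ (Qc_mem hk1 u)
    obtain ⟨j, u, hu, v, hv, huj, hvj, huv⟩ := leb hk1 (fun u => π (Φ u)) (hπc.comp hΦc.continuousOn hΦb)
      (fun u hu => hπs _ (hΦb u hu))
    have hlt2 := hfib _ (hΦb u hu) _ (hΦb v hv) huv
    rw [hΦe, hΦe] at hlt2
    by_cases hj : j.val = 0
    · have hj' : j = ⟨0, by omega⟩ := Fin.ext hj
      have hTu : T u = t := by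
        rw [hTe, ← hj', huj]
        ring
      have hTv : T v = s' := by
        rw [hTe, ← hj', hvj]
        ring
      rw [hTu, hTv] at hlt2
      have h1 := hsep1 _ (Qc_mem (n := n) hk1 u) _ (Qc_mem (n := n) hk1 v)
      have h2 : 1 / (16 * N) ≤ 1 / 16 := by
        apply one_div_le_one_div_of_le (by norm_num)
        linarith
      linarith
    · obtain ⟨h1, h2⟩ := Qc_inner hk hkn hu hv hj huj hvj
      exact absurd hlt2 (not_lt.2 (hsep2 _ (hTm u hu) (T v) _ (Qc_mem hk1 u) _ (Qc_mem hk1 v) h1 h2))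
  intro p hp q hq
  linarith [hdiam 1 p hp q hq]

end Pool.Agent.Lib.MP_cd4c70_gt
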