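import Mathlib

/-!
# MP_cd4c70_gt: definitions for the statement

The sphere `S^n` is the set of the `x : Fin (n + 1) → ℝ` with `∑ x_i² = 1`.
-/

namespace Pool.Agent.Lib.MP_cd4c70_gt.Pub

open Set Finset
open scoped ENNReal Matrix

/-- The sphere `S^n` in `ℝ^(n+1)`. -/
def sphere (n : ℕ) : Set (Fin (n + 1) → ℝ) := {x | ∑ i, x i ^ 2 = 1}

/-- The `d`-skeleton of the simplex with the vertices `0, ..., m - 1` (barycentric coordinates). -/
def skeleton (m d : ℕ) : Set (Fin m → ℝ) :=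
  {y | (∀ v, 0 ≤ y v) ∧ ∑ v, y v = 1 ∧ #(univ.filter fun v => y v ≠ 0) ≤ d + 1}

/-- The largest diameter of a fibre of `π` in `S`. -/
noncomputable def fibreDiam {n m : ℕ} (ρ : (Fin (n + 1) → ℝ) → (Fin (n + 1) → ℝ) → ℝ) (S : Set (Fin (n + 1) → ℝ))
    (π : (Fin (n + 1) → ℝ) → (Fin m → ℝ)) : ℝ≥0∞ :=
  ⨆ (x ∈ S) (y ∈ S) (_ : π x = π y), ENNReal.ofReal (ρ x y)

/-- The Urysohn width `UW_d` of a subset `S` of `ℝ^(n+1)` with respect to the distance function `ρ`: the infimum over the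
continuous maps `π` from `S` to finite simplicial complexes of dimension at most `d` of the largest diameter of a fibre. -/
noncomputable def width {n : ℕ} (ρ : (Fin (n + 1) → ℝ) → (Fin (n + 1) → ℝ) → ℝ) (d : ℕ) (S : Set (Fin (n + 1) → ℝ)) : ℝ≥0∞ :=
  ⨅ (m : ℕ) (π : (Fin (n + 1) → ℝ) → (Fin m → ℝ)) (_ : ContinuousOn π S) (_ : MapsTo π S (skeleton m d)), fibreDiam ρ S π

/-- `ρ` is a metric on the sphere `S^n`, continuous for the usual topology (so it induces this topology, as the sphere is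
compact). -/
structure IsSphereMetric (n : ℕ) (ρ : (Fin (n + 1) → ℝ) → (Fin (n + 1) → ℝ) → ℝ) : Prop where
  self : ∀ x ∈ sphere n, ρ x x = 0
  pos : ∀ x ∈ sphere n, ∀ y ∈ sphere n, x ≠ y → 0 < ρ x y
  symm : ∀ x ∈ sphere n, ∀ y ∈ sphere n, ρ x y = ρ y x
  tri : ∀ x ∈ sphere n, ∀ y ∈ sphere n, ∀ z ∈ sphere n, ρ x z ≤ ρ x y + ρ y z
  cont : ContinuousOn (fun p : (Fin (n + 1) → ℝ) × (Fin (n + 1) → ℝ) => ρ p.1 p.2) (sphere n ×ˢ sphere n)

/-- `A` is a rotation of the first `k` coordinates of `ℝ^(n+1)` (an element of `SO(k)`). -/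
def IsRotation (n k : ℕ) (A : Matrix (Fin (n + 1)) (Fin (n + 1)) ℝ) : Prop :=
  Aᵀ * A = 1 ∧ A.det = 1 ∧ ∀ i j : Fin (n + 1), k ≤ i.val → A i j = if i = j then 1 else 0

/-- The rotations of the first `k` coordinates are `L`-Lipschitz maps for `ρ`. -/
def RotLipschitz (n k : ℕ) (L : ℝ) (ρ : (Fin (n + 1) → ℝ) → (Fin (n + 1) → ℝ) → ℝ) : Prop :=
  ∀ A, IsRotation n k A → ∀ x ∈ sphere n, ∀ y ∈ sphere n, ρ (A *ᵥ x) (A *ᵥ y) ≤ L * ρ x y

/-- Every closed unit ball `B` has `UW_d(B) < η`. -/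
def LocalWidth (n d : ℕ) (η : ℝ) (ρ : (Fin (n + 1) → ℝ) → (Fin (n + 1) → ℝ) → ℝ) : Prop :=
  ∀ x ∈ sphere n, width ρ d {y | y ∈ sphere n ∧ ρ x y ≤ 1} < ENNReal.ofReal η

/-- The property `P(n,d)` for the metrics on `S^n` whose rotations of the first `k` coordinates are `L`-Lipschitz. -/
def PRot (n d k : ℕ) (L : ℝ) : Prop :=
  ∃ ε C : ℝ, 0 < ε ∧ ∀ ρ, IsSphereMetric n ρ → RotLipschitz n k L ρ → LocalWidth n d ε ρ →
    width ρ (n - 1) (sphere n) ≤ ENNReal.ofReal C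

end Pool.Agent.Lib.MP_cd4c70_gt.Pub
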