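import Pool.Agent.Lib.MP_cd4c70_gt.Defs

/-!
# MP_cd4c70_gt, Ref: `O(k)` acts transitively on the pairs of unit vectors with a given inner product
-/

namespace Pool.Agent.Lib.MP_cd4c70_gt

open Set Finset
open scoped RealInnerProductSpace

private theorem inner_e {n : ℕ} (x : E n) (i : Fin (n + 1)) :
    inner ℝ (EuclideanSpace.single i (1 : ℝ)) x = x i := by
  rw [EuclideanSpace.inner_single_left]
  simp

/-- the reflection which exchanges `v` and `w` -/
private noncomputable def rfl' {n : ℕ} (v w : E n) : E n ≃ₗᵢ[ℝ] E n := (ℝ ∙ (v - w))ᗮ.reflection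

private theorem rfl'_fix {n : ℕ} {v w x : E n} (h : inner ℝ (v - w) x = 0) : rfl' v w x = x :=
  Submodule.reflection_mem_subspace_eq_self (Submodule.mem_orthogonal_singleton_iff_inner_right.2 h)

private theorem rfl'_acts {n k : ℕ} {v w : E n} (hv : v ∈ MU n k) (hw : w ∈ MU n k) :
    Acts n k (rfl' v w) := by
  intro x i hi
  have h1 : rfl' v w (EuclideanSpace.single i (1 : ℝ)) = EuclideanSpace.single i (1 : ℝ) := by
    refine rfl'_fix ?_
    rw [real_inner_comm, inner_e]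
    show v i - w i = 0
    rw [hv.2 i hi, hw.2 i hi, sub_self]
  have h2 := LinearIsometryEquiv.inner_map_map (rfl' v w) (EuclideanSpace.single i (1 : ℝ)) x
  rw [h1, inner_e, inner_e] at h2
  exact h2

private theorem rfl'_map {n : ℕ} {v w : E n} (h : ‖v‖ = ‖w‖) : rfl' v w v = w :=
  Submodule.reflection_sub h

private theorem act_MU' {n k : ℕ} {g : E n ≃ₗᵢ[ℝ] E n} (hg : Acts n k g) {p : E n}
    (hp : p ∈ MU n k) : g p ∈ MU n k := by
  refine ⟨by rw [LinearIsometryEquiv.norm_map]; exact hp.1, fun i hi => ?_⟩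
  rw [hg p i hi]
  exact hp.2 i hi

theorem exists_act {n k : ℕ} {p q p' q' : E n} (hp : p ∈ MU n k) (hq : q ∈ MU n k) (hp' : p' ∈ MU n k) (hq' : q' ∈ MU n k)
    (h : ⟪p, q⟫ = ⟪p', q'⟫) : ∃ g : E n ≃ₗᵢ[ℝ] E n, Acts n k g ∧ g p = p' ∧ g q = q' := by
  have hs : Acts n k (rfl' p p') := rfl'_acts hp hp'
  have hq2 : rfl' p p' q ∈ MU n k := act_MU' hs hq
  have hsp : rfl' p p' p = p' := rfl'_map (hp.1.trans hp'.1.symm)
  have ht : Acts n k (rfl' (rfl' p p' q) q') := rfl'_acts hq2 hq'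
  refine ⟨(rfl' p p').trans (rfl' (rfl' p p' q) q'), ?_, ?_, ?_⟩
  · intro x i hi
    rw [LinearIsometryEquiv.trans_apply, ht _ i hi, hs _ i hi]
  · rw [LinearIsometryEquiv.trans_apply, hsp]
    refine rfl'_fix ?_
    have h1 := LinearIsometryEquiv.inner_map_map (rfl' p p') p q
    rw [hsp, h] at h1
    rw [inner_sub_left, real_inner_comm, h1, real_inner_comm p' q', sub_self]
  · rw [LinearIsometryEquiv.trans_apply]
    exact rfl'_map (hq2.1.trans hq'.1.symm)

theorem act_MU {n k : ℕ} {g : E n ≃ₗᵢ[ℝ] E n} (hg : Acts n k g) {p : E n} (hp : p ∈ MU n k) : g p ∈ MU n k := by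
  refine ⟨by rw [LinearIsometryEquiv.norm_map]; exact hp.1, fun i hi => ?_⟩
  rw [hg p i hi]
  exact hp.2 i hi

/-- `g` fixes the vectors whose first `k` coordinates are zero. -/
theorem act_ax {n k : ℕ} {g : E n ≃ₗᵢ[ℝ] E n} (hg : Acts n k g) {a : E n} (ha : ∀ i : Fin (n + 1), i.val < k → a i = 0) :
    g a = a := by
  have h1 : inner ℝ (g a) a = inner ℝ a a := by
    rw [PiLp.inner_apply, PiLp.inner_apply]
    refine Finset.sum_congr rfl fun i _ => ?_
    rcases lt_or_ge i.val k with hi | hi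
    · rw [ha i hi, inner_zero_right, inner_zero_right]
    · rw [hg a i hi]
  have h2 : ‖g a - a‖ ^ 2 = 0 := by
    rw [norm_sub_sq_real, h1, LinearIsometryEquiv.norm_map, real_inner_self_eq_norm_sq]
    ring
  rw [sq_eq_zero_iff, norm_eq_zero, sub_eq_zero] at h2
  exact h2

end Pool.Agent.Lib.MP_cd4c70_gt
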